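import Mathlib

/-!
Base types for the ZFC example: a type `W` of order type omega one and a type `K` of order type
the successor cardinal of the continuum, with the few facts about them that are used.
-/

set_option autoImplicit false

open Set Cardinal

namespace Pool.Agent.H57.AR

lemma bdd_of_card {α : Type} [LinearOrder α] {κ : Cardinal.{0}} (hκ : ℵ₀ ≤ κ)
    (h1 : ∀ x : α, #(Set.Iio x) ≤ κ) (h2 : κ < #α) (C : Set α) (hC : #C ≤ κ) :
    ∃ b, ∀ x ∈ C, x < b := by
  by_contra hcon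
  push Not at hcon
  have huniv : (Set.univ : Set α) ⊆ ⋃ x : C, Set.Iic (x : α) := by
    intro b _
    obtain ⟨x, hx, hbx⟩ := hcon b
    exact Set.mem_iUnion.2 ⟨⟨x, hx⟩, hbx⟩
  have h3 : #α ≤ #(⋃ x : C, Set.Iic (x : α) : Set α) := by
    rw [← mk_univ]
    exact mk_le_mk_of_subset huniv
  have h4 : ∀ x : α, #(Set.Iic x) ≤ κ := by
    intro x
    have h5 : Set.Iic x = insert x (Set.Iio x) := by
      ext y
      simp [le_iff_eq_or_lt]
    rw [h5]
    refine mk_insert_le.trans ?_
    calc #(Set.Iio x) + 1 ≤ κ + κ := add_le_add (h1 x) (one_le_aleph0.trans hκ)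
      _ = κ := add_eq_self hκ
  have h6 : #(⋃ x : C, Set.Iic (x : α) : Set α) ≤ κ := by
    refine (mk_iUnion_le _).trans ?_
    calc #C * ⨆ i : C, #(Set.Iic (i : α)) ≤ κ * κ := mul_le_mul' hC (ciSup_le' fun i => h4 i)
      _ = κ := mul_eq_self hκ
  exact absurd (h3.trans h6) (not_le.2 h2)

lemma exists_isLUB {α : Type} [LinearOrder α] [WellFoundedLT α] (A : Set α) (h : BddAbove A) :
    ∃ η, IsLUB A η := by
  refine ⟨wellFounded_lt.min (upperBounds A) h, wellFounded_lt.min_mem _ h, ?_⟩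
  intro b hb
  exact not_lt.1 (wellFounded_lt.not_lt_min _ hb)

/-- The type of countable ordinals. -/
def W : Type := (Cardinal.aleph 1).ord.ToType

/-- The type of ordinals below the successor cardinal of the continuum. -/
def K : Type := (Order.succ Cardinal.continuum).ord.ToType

noncomputable instance : LinearOrder W :=
  inferInstanceAs (LinearOrder (Cardinal.aleph 1).ord.ToType)

instance : WellFoundedLT W :=
  inferInstanceAs (WellFoundedLT (Cardinal.aleph 1).ord.ToType)

noncomputable instance : LinearOrder K :=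
  inferInstanceAs (LinearOrder (Order.succ Cardinal.continuum).ord.ToType)

instance : WellFoundedLT K :=
  inferInstanceAs (WellFoundedLT (Order.succ Cardinal.continuum).ord.ToType)

lemma mk_W : #W = Cardinal.aleph 1 := Cardinal.mk_ord_toType _

lemma mk_K : #K = Order.succ Cardinal.continuum := Cardinal.mk_ord_toType _

instance : Nonempty W := by
  rw [← mk_ne_zero_iff, mk_W]
  exact (aleph_pos 1).ne'

instance : Nonempty K := by
  rw [← mk_ne_zero_iff, mk_K]
  exact (lt_of_lt_of_le continuum_pos (Order.le_succ _)).ne'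

noncomputable instance : OrderBot W := WellFoundedLT.toOrderBot _
noncomputable instance : OrderBot K := WellFoundedLT.toOrderBot _

lemma mk_W_le : #W ≤ 𝔠 := by
  rw [mk_W]
  exact aleph_one_le_continuum

lemma lt_mk_K : 𝔠 < #K := by
  rw [mk_K]
  exact Order.lt_succ _

lemma W_Iio (x : W) : (Set.Iio x).Countable := by
  have h : #(Set.Iio x) < Cardinal.aleph 1 := by
    have := Cardinal.mk_Iio_lt (α := (Cardinal.aleph 1).ord.ToType) x (by simp)
    rwa [Cardinal.mk_ord_toType] at this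
  rw [← le_aleph0_iff_set_countable]
  rw [← succ_aleph0] at h
  exact Order.lt_succ_iff.1 h

lemma W_bdd (C : Set W) (hC : C.Countable) : ∃ b, ∀ x ∈ C, x < b := by
  refine bdd_of_card le_rfl (fun x => ?_) ?_ C ?_
  · exact le_aleph0_iff_set_countable.2 (W_Iio x)
  · rw [mk_W, ← succ_aleph0]
    exact Order.lt_succ _
  · exact le_aleph0_iff_set_countable.2 hC

lemma K_Iio (x : K) : #(Set.Iio x) ≤ 𝔠 := by
  have h : #(Set.Iio x) < Order.succ 𝔠 := by
    have := Cardinal.mk_Iio_lt (α := (Order.succ Cardinal.continuum).ord.ToType) x (by simp)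
    rwa [Cardinal.mk_ord_toType] at this
  exact Order.lt_succ_iff.1 h

lemma K_bdd (C : Set K) (hC : #C ≤ 𝔠) : ∃ b, ∀ x ∈ C, x < b :=
  bdd_of_card aleph0_le_continuum K_Iio lt_mk_K C hC

lemma K_bdd_countable (C : Set K) (hC : C.Countable) : ∃ b, ∀ x ∈ C, x < b :=
  K_bdd C ((le_aleph0_iff_set_countable.2 hC).trans aleph0_le_continuum)

lemma K_bdd_range {ι : Type} (hι : #ι ≤ 𝔠) (g : ι → K) : ∃ b, ∀ i, g i < b := by
  obtain ⟨b, hb⟩ := K_bdd (Set.range g) (mk_range_le.trans hι)
  exact ⟨b, fun i => hb _ ⟨i, rfl⟩⟩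

lemma W_bdd_range {ι : Type} [Countable ι] (g : ι → W) : ∃ b, ∀ i, g i < b := by
  obtain ⟨b, hb⟩ := W_bdd (Set.range g) (Set.countable_range g)
  exact ⟨b, fun i => hb _ ⟨i, rfl⟩⟩

lemma K_exists_gt (x : K) : ∃ y, x < y := by
  obtain ⟨b, hb⟩ := K_bdd_countable {x} (Set.countable_singleton x)
  exact ⟨b, hb x rfl⟩

lemma W_exists_gt (x : W) : ∃ y, x < y := by
  obtain ⟨b, hb⟩ := W_bdd {x} (Set.countable_singleton x)
  exact ⟨b, hb x rfl⟩

/-- The set of points of `W + K` given by a pair. -/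
def st (δ : W) (a : Set K) : Set (W ⊕ K) := Sum.elim (fun w => w < δ) (fun k => k ∈ a)

@[simp] lemma inl_mem_st {δ : W} {a : Set K} {w : W} : Sum.inl w ∈ st δ a ↔ w < δ := Iff.rfl
@[simp] lemma inr_mem_st {δ : W} {a : Set K} {k : K} : Sum.inr k ∈ st δ a ↔ k ∈ a := Iff.rfl

lemma st_mono {δ δ' : W} {a a' : Set K} (h : δ ≤ δ') (h' : a ⊆ a') : st δ a ⊆ st δ' a' := by
  rintro (w | k) hx
  · exact lt_of_lt_of_le hx h
  · exact h' hx

/-- Closure of a pair under countably many finitary operations. -/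
def Cl (f : ℕ → Finset (W ⊕ K) → W ⊕ K) (δ : W) (a : Set K) : Prop :=
  ∀ n, ∀ u : Finset (W ⊕ K), (↑u : Set (W ⊕ K)) ⊆ st δ a → f n u ∈ st δ a

end Pool.Agent.H57.AR
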