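import Pool.Agent.H57.AR.Tree

/-!
The diamond on the product of `W` and the countable subsets of `K`.
-/

set_option autoImplicit false

open Set Cardinal

namespace Pool.Agent.H57.AR

lemma exists_bound_moves (f : ℕ → Finset (W ⊕ K) → W ⊕ K) (δ : W) : ∃ G : K → K, ∀ ζ t,
    NB f δ t → t ⊆ Iio ζ → ∀ β ≤ ζ, ∃ z, β ≤ z ∧ ∃ t', Legal f δ t z t' ∧ NB f δ t' ∧
    t' ⊆ Iio (G ζ) := by
  have h1 : ∀ (t : Set K) (β : K), ∃ b : K, NB f δ t → ∃ z, β ≤ z ∧ ∃ t', Legal f δ t z t' ∧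
      NB f δ t' ∧ t' ⊆ Iio b := by
    intro t β
    by_cases ht : NB f δ t
    · obtain ⟨z, hz, t', hL, hN⟩ := ht.step β
      obtain ⟨b, hb⟩ := K_bdd_countable t' hN.1
      exact ⟨b, fun _ => ⟨z, hz, t', hL, hN, hb⟩⟩
    · exact ⟨⊥, fun h => absurd h ht⟩
  choose b hb using h1
  have h2 : ∀ ζ : K, ∃ c : K, ∀ t, t.Countable → t ⊆ Iio ζ → ∀ β ≤ ζ, b t β < c := by
    intro ζ
    obtain ⟨c, hc⟩ := K_bdd_range (ι := {t : Set K // t ⊆ Iio ζ ∧ t.Countable} × Iic ζ) (by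
      rw [mk_prod, lift_id, lift_id]
      calc _ ≤ 𝔠 * 𝔠 := mul_le_mul' (card_cs _ (K_Iio ζ)) (K_Iic ζ)
        _ = 𝔠 := mul_eq_self aleph0_le_continuum) (fun p => b p.1.1 p.2.1)
    exact ⟨c, fun t ht hs β hβ => hc (⟨t, hs, ht⟩, ⟨β, hβ⟩)⟩
  choose G hG using h2
  refine ⟨G, fun ζ t ht hs β hβ => ?_⟩
  obtain ⟨z, hz, t', hL, hN, hsub⟩ := hb t β ht
  exact ⟨z, hz, t', hL, hN, hsub.trans (Iio_subset_Iio (hG ζ t ht.1 hs β hβ).le)⟩

/-- The decoding map. -/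
def sdec (Lad : K → ℕ → K) (en : Set K → ℕ → K) (a : Set K) : Set K :=
  {y | y ∈ a ∧ ∃ η, IsLUB a η ∧ ∃ m : ℕ, (∃ w ∈ a, Lad η (2 * m) ≤ w ∧ w < Lad η (2 * m + 1)) ∧
    y = en (a ∩ Iio (Lad η (2 * (Nat.unpair m).1))) (Nat.unpair m).2}

/-- One stage of the coding construction. -/
structure Stp (f : ℕ → Finset (W ⊕ K) → W ⊕ K) (δ : W) (A : Set K) (en : Set K → ℕ → K)
    (e : ℕ → K) (m : ℕ) (t t' : Set K) : Prop where
  restr : t' ∩ Iio (e (2 * m)) = t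
  bit : (∃ w ∈ t', e (2 * m) ≤ w ∧ w < e (2 * m + 1)) ↔
    en (t ∩ Iio (e (2 * (Nat.unpair m).1))) (Nat.unpair m).2 ∈ A
  big : ∃ w ∈ t', e (2 * m + 1) ≤ w
  clos : ∀ n (u : Finset (W ⊕ K)), (↑u : Set (W ⊕ K)) ⊆ st δ t → f n u ∈ st δ t'

/-- The positions admitted at stage `m`. -/
def Good (f : ℕ → Finset (W ⊕ K) → W ⊕ K) (δ : W) (e : ℕ → K) (m : ℕ) (t : Set K) : Prop :=
  NB f δ t ∧ ∃ b < e (2 * m), t ⊆ Iio b

lemma exists_Stp {f : ℕ → Finset (W ⊕ K) → W ⊕ K} {δ : W} {G : K → K}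
    (hG : ∀ ζ t, NB f δ t → t ⊆ Iio ζ → ∀ β ≤ ζ, ∃ z, β ≤ z ∧ ∃ t', Legal f δ t z t' ∧
      NB f δ t' ∧ t' ⊆ Iio (G ζ))
    {e : ℕ → K} (he : StrictMono e) (heE : ∀ n, e n ∈ E G) (A : Set K) (en : Set K → ℕ → K)
    (m : ℕ) (t : Set K) (ht : Good f δ e m t) :
    ∃ t', Good f δ e (m + 1) t' ∧ Stp f δ A en e m t t' := by
  have move : ∀ (x : K), x ∈ E G → ∀ t, NB f δ t → (∃ b < x, t ⊆ Iio b) → ∀ β < x,
      ∃ z, β ≤ z ∧ z < x ∧ ∃ t', Legal f δ t z t' ∧ NB f δ t' ∧ ∃ b' < x, t' ⊆ Iio b' := by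
    intro x hx t ht hb β hβ
    obtain ⟨b, hb, hs⟩ := hb
    have hmax : max b β < x := max_lt hb hβ
    obtain ⟨z, hz, t', hL, hN, hs'⟩ := hG (max b β) t ht
      (hs.trans (Iio_subset_Iio (le_max_left _ _))) β (le_max_right _ _)
    exact ⟨z, hz, (hs' hL.2.1).trans (hx _ hmax), t', hL, hN, _, hx _ hmax, hs'⟩
  have h01 : e (2 * m) < e (2 * m + 1) := he (by omega)
  have h12 : e (2 * m + 1) < e (2 * (m + 1)) := he (by omega)
  obtain ⟨htN, b, hb, hs⟩ := ht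
  have first : ∃ t', t ⊆ t' ∧ NB f δ t' ∧ (∃ b' < e (2 * m + 1), t' ⊆ Iio b') ∧
      t' ∩ Iio (e (2 * m)) = t ∧ ((∃ w ∈ t', e (2 * m) ≤ w) ↔
      en (t ∩ Iio (e (2 * (Nat.unpair m).1))) (Nat.unpair m).2 ∈ A) := by
    by_cases hbit : en (t ∩ Iio (e (2 * (Nat.unpair m).1))) (Nat.unpair m).2 ∈ A
    · obtain ⟨z, hz, hz', t', hL, hN, hb'⟩ := move (e (2 * m + 1)) (heE _) t htN
        ⟨b, hb.trans h01, hs⟩ (e (2 * m)) h01
      refine ⟨t', ?_, hN, hb', ?_, ?_⟩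
      · rw [← hL.1]
        exact inter_subset_left
      · apply Subset.antisymm
        · rintro y ⟨hy1, hy2⟩
          rw [← hL.1]
          exact ⟨hy1, lt_of_lt_of_le hy2 hz⟩
        · intro y hy
          refine ⟨?_, (hs hy).trans hb⟩
          rw [← hL.1] at hy
          exact hy.1
      · exact iff_of_true ⟨z, hL.2.1, hz⟩ hbit
    · refine ⟨t, Subset.rfl, htN, ⟨b, hb.trans h01, hs⟩, ?_, ?_⟩
      · apply inter_eq_left.2
        intro y hy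
        exact (hs hy).trans hb
      · refine iff_of_false ?_ hbit
        rintro ⟨w, hw, hle⟩
        exact absurd ((hs hw).trans hb) (not_lt.2 hle)
  obtain ⟨t', htt', hN', ⟨b', hb', hs'⟩, hr', hbit'⟩ := first
  obtain ⟨z, hz, hz', t'', hL, hN, hb''⟩ := move (e (2 * (m + 1))) (heE _) t' hN'
    ⟨b', hb'.trans h12, hs'⟩ (e (2 * m + 1)) h12
  have hsub : t' ⊆ t'' := by
    rw [← hL.1]
    exact inter_subset_left
  refine ⟨t'', ⟨hN, hb''⟩, ?_, ?_, ⟨z, hL.2.1, hz⟩, ?_⟩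
  · apply Subset.antisymm
    · rintro y ⟨hy1, hy2⟩
      rw [← hr', ← hL.1]
      exact ⟨⟨hy1, lt_of_lt_of_le (lt_trans hy2 h01) hz⟩, hy2⟩
    · intro y hy
      exact ⟨hsub (htt' hy), (hs hy).trans hb⟩
  · rw [← hbit']
    constructor
    · rintro ⟨w, hw, h1, h2⟩
      refine ⟨w, ?_, h1⟩
      rw [← hL.1]
      exact ⟨hw, lt_of_lt_of_le h2 hz⟩
    · rintro ⟨w, hw, h1⟩
      exact ⟨w, hsub hw, h1, (hs' hw).trans hb'⟩
  · intro n u hu
    exact hL.2.2.2 n u (hu.trans (st_mono le_rfl htt'))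

theorem diamond {S : Set W} (hS : Stat S) : ∃ s : Set K → Set K, (∀ a, s a ⊆ a) ∧
    ∀ (A : Set K) (f : ℕ → Finset (W ⊕ K) → W ⊕ K), ∃ δ ∈ S, ∃ a : Set K, a.Countable ∧
      Cl f δ a ∧ s a = A ∩ a := by
  classical
  obtain ⟨Lad, hLad⟩ := guess
  have hen : ∀ c : Set K, ∃ g : ℕ → K, c.Countable → c.Nonempty → c = range g := by
    intro c
    by_cases h : c.Countable ∧ c.Nonempty
    · obtain ⟨g, hg⟩ := h.1.exists_eq_range h.2
      exact ⟨g, fun _ _ => hg⟩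
    · exact ⟨fun _ => ⊥, fun h1 h2 => absurd ⟨h1, h2⟩ h⟩
  choose en hen using hen
  refine ⟨sdec Lad en, fun a y hy => hy.1, fun A f => ?_⟩
  obtain ⟨δ, hδ, t0, ht0⟩ := exists_NB hS f
  obtain ⟨G, hG⟩ := exists_bound_moves f δ
  obtain ⟨b0, hb0⟩ := K_bdd_countable t0 ht0.1
  obtain ⟨η, he, hcof, hb, heE⟩ := hLad b0 G
  have hstep : ∀ (m : ℕ) (t : {t : Set K // Good f δ (Lad η) m t}),
      ∃ t' : {t : Set K // Good f δ (Lad η) (m + 1) t}, Stp f δ A en (Lad η) m t.1 t'.1 := by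
    intro m t
    obtain ⟨t', h1, h2⟩ := exists_Stp hG he heE A en m t.1 t.2
    exact ⟨⟨t', h1⟩, h2⟩
  choose next hnext using hstep
  let T : ∀ m : ℕ, {t : Set K // Good f δ (Lad η) m t} := fun m =>
    Nat.rec ⟨t0, ht0, b0, hb _, hb0⟩ (fun m t => next m t) m
  have hT : ∀ m, Stp f δ A en (Lad η) m (T m).1 (T (m + 1)).1 := fun m => hnext m (T m)
  have hmono1 : ∀ m, (T m).1 ⊆ (T (m+1)).1 := by
    intro m
    rw [← (hT m).restr]
    exact inter_subset_left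
  have hmono : Monotone (fun m => (T m).1) := monotone_nat_of_le_succ hmono1
  have hbelow : ∀ m, (T m).1 ⊆ Iio (Lad η (2 * m)) := by
    intro m
    obtain ⟨_, b, hb, hs⟩ := (T m).2
    exact hs.trans (Iio_subset_Iio hb.le)
  have hback : ∀ m k, m ≤ k → (T k).1 ∩ Iio (Lad η (2 * m)) = (T m).1 := by
    intro m k hk
    induction k, hk using Nat.le_induction with
    | base => exact inter_eq_left.2 (hbelow m)
    | succ k hk ih =>
      rw [← ih, ← (hT k).restr, inter_assoc, Iio_inter_Iio,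
        min_eq_right (he.monotone (by omega : 2 * m ≤ 2 * k))]
  let a : Set K := ⋃ m, (T m).1
  have hTa : ∀ m, a ∩ Iio (Lad η (2 * m)) = (T m).1 := by
    intro m
    apply Subset.antisymm
    · rintro y ⟨hy1, hy2⟩
      obtain ⟨k, hk⟩ := mem_iUnion.1 hy1
      rcases le_total m k with h | h
      · rw [← hback m k h]
        exact ⟨hk, hy2⟩
      · exact hmono h hk
    · intro y hy
      exact ⟨mem_iUnion.2 ⟨m, hy⟩, hbelow m hy⟩
  have hLUB : IsLUB a η := by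
    constructor
    · intro y hy
      obtain ⟨k, hk⟩ := mem_iUnion.1 hy
      exact ((hbelow k hk).trans (hcof.1 _)).le
    · intro c hc
      by_contra hlt
      obtain ⟨n, hn⟩ := hcof.2 c (not_le.1 hlt)
      obtain ⟨w, hw, hle⟩ := (hT n).big
      have h1 : c < w := lt_of_lt_of_le hn ((he.monotone (by omega : n ≤ 2 * n + 1)).trans hle)
      exact absurd (hc (mem_iUnion.2 ⟨n + 1, hw⟩)) (not_le.2 h1)
  have hac : a.Countable := countable_iUnion fun m => (T m).2.1.1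
  refine ⟨δ, hδ, a, hac, ?_, ?_⟩
  · intro n u hu
    have h1 : ∀ b ∈ u, ∃ m, b ∈ st δ (T m).1 := by
      intro b hb
      have h2 := hu hb
      rcases b with w | k
      · exact ⟨0, h2⟩
      · obtain ⟨m, hm⟩ := mem_iUnion.1 h2
        exact ⟨m, hm⟩
    choose! x hx using h1
    have h3 : (↑u : Set (W ⊕ K)) ⊆ st δ (T (u.sup x)).1 := by
      intro b hb
      exact st_mono le_rfl (hmono (Finset.le_sup hb)) (hx b hb)
    exact st_mono le_rfl (subset_iUnion (fun m => (T m).1) (u.sup x + 1)) ((hT _).clos n u h3)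
  · have hbit : ∀ m, (∃ w ∈ a, Lad η (2 * m) ≤ w ∧ w < Lad η (2 * m + 1)) ↔
        en (a ∩ Iio (Lad η (2 * (Nat.unpair m).1))) (Nat.unpair m).2 ∈ A := by
      intro m
      have h1 : (T m).1 ∩ Iio (Lad η (2 * (Nat.unpair m).1)) =
          a ∩ Iio (Lad η (2 * (Nat.unpair m).1)) := by
        rw [hTa, hback _ _ (Nat.unpair_left_le m)]
      rw [← h1, ← (hT m).bit]
      constructor
      · rintro ⟨w, hw, h2, h3⟩
        refine ⟨w, ?_, h2, h3⟩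
        rw [← hTa (m + 1)]
        exact ⟨hw, h3.trans (he (by omega))⟩
      · rintro ⟨w, hw, h2, h3⟩
        exact ⟨w, mem_iUnion.2 ⟨m + 1, hw⟩, h2, h3⟩
    apply Subset.antisymm
    · rintro y ⟨hy1, η', hη', m, hm, rfl⟩
      have hηη : η' = η := hη'.unique hLUB
      subst hηη
      exact ⟨(hbit m).1 hm, hy1⟩
    · rintro y ⟨hyA, hya⟩
      refine ⟨hya, η, hLUB, ?_⟩
      obtain ⟨n, hn⟩ := mem_iUnion.1 hya
      have h1 : (T n).1 = range (en (T n).1) := hen _ (T n).2.1.1 ⟨y, hn⟩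
      have h2 : y ∈ range (en (T n).1) := h1 ▸ hn
      obtain ⟨j, hj⟩ := h2
      have h3 : y = en (a ∩ Iio (Lad η (2 * (Nat.unpair (Nat.pair n j)).1)))
          (Nat.unpair (Nat.pair n j)).2 := by
        rw [Nat.unpair_pair]
        simp only
        rw [hTa, hj]
      refine ⟨Nat.pair n j, (hbit _).2 ?_, h3⟩
      rw [← h3]
      exact hyA

end Pool.Agent.H57.AR
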