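import Pool.Agent.H57.AR.Base

/-!
Club guessing at points of countable cofinality in `K`.
-/

set_option autoImplicit false

open Set Cardinal

namespace Pool.Agent.H57.AR

/-- The points closed under `G`. -/
def E (G : K → K) : Set K := {e | ∀ ζ < e, G ζ < e}

lemma bot_mem_E (G : K → K) : ⊥ ∈ E G := fun _ h => absurd h not_lt_bot

lemma E_isLUB {G : K → K} {A : Set K} (hA : A ⊆ E G) {s : K} (hs : IsLUB A s) : s ∈ E G := by
  intro ζ hζ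
  obtain ⟨e, he, h1⟩ := (lt_isLUB_iff hs).1 hζ
  exact lt_of_lt_of_le (hA he ζ h1) (hs.1 he)

lemma E_anti {G G' : K → K} (h : ∀ ζ, G ζ ≤ G' ζ) : E G' ⊆ E G :=
  fun _ he ζ hζ => lt_of_le_of_lt (h ζ) (he ζ hζ)

lemma K_Iic (x : K) : #(Set.Iic x) ≤ 𝔠 := by
  have h5 : Set.Iic x = insert x (Set.Iio x) := by
    ext y
    simp [le_iff_eq_or_lt]
  rw [h5]
  refine mk_insert_le.trans ?_
  calc #(Set.Iio x) + 1 ≤ 𝔠 + 𝔠 :=
        add_le_add (K_Iio x) (one_le_aleph0.trans aleph0_le_continuum)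
    _ = 𝔠 := add_eq_self aleph0_le_continuum

lemma K_step (G : K → K) (x : K) : ∃ y, x < y ∧ ∀ ζ ≤ x, G ζ < y := by
  obtain ⟨b, hb⟩ := K_bdd (insert x (G '' Iic x)) (by
    refine mk_insert_le.trans ?_
    calc #(G '' Iic x) + 1 ≤ 𝔠 + 𝔠 :=
          add_le_add (mk_image_le.trans (K_Iic x)) (one_le_aleph0.trans aleph0_le_continuum)
      _ = 𝔠 := add_eq_self aleph0_le_continuum)
  exact ⟨b, hb x (mem_insert _ _), fun ξ hξ => hb _ (mem_insert_of_mem _ ⟨ξ, hξ, rfl⟩)⟩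

lemma exists_lub_iterate (g : K → K) (hg : ∀ x, x < g x) (b : K) :
    ∃ η, IsLUB (range (fun n : ℕ => g^[n] b)) η ∧ ∀ n : ℕ, g^[n] b < η := by
  obtain ⟨c, hc⟩ := K_bdd_countable (range (fun n : ℕ => g^[n] b)) (countable_range _)
  obtain ⟨η, hη⟩ := exists_isLUB (range (fun n : ℕ => g^[n] b)) ⟨c, fun x hx => (hc x hx).le⟩
  refine ⟨η, hη, fun n => ?_⟩
  have h1 : g^[n] b < g^[n+1] b := by
    rw [Function.iterate_succ_apply']
    exact hg _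
  exact lt_of_lt_of_le h1 (hη.1 ⟨n + 1, rfl⟩)

lemma E_unbounded (G : K → K) (b : K) : ∃ e ∈ E G, b < e := by
  choose g hg1 hg2 using K_step G
  obtain ⟨η, hη, hlt⟩ := exists_lub_iterate g hg1 b
  refine ⟨η, ?_, hlt 0⟩
  intro ξ hξ
  obtain ⟨_, ⟨n, rfl⟩, hn⟩ := (lt_isLUB_iff hη).1 hξ
  have h2 : G ξ < g^[n+1] b := by
    rw [Function.iterate_succ_apply']
    exact hg2 _ _ (le_of_lt hn)
  exact h2.trans (hlt _)

/-- A sequence of points below `η` and cofinal in `η`. -/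
def CofSeq (η : K) (v : ℕ → K) : Prop := (∀ n, v n < η) ∧ ∀ ζ < η, ∃ n, ζ < v n

lemma CofSeq.exists_strictMono {η : K} {v : ℕ → K} (h : CofSeq η v) :
    ∃ w : ℕ → K, StrictMono w ∧ (∀ k, w k ∈ range v) ∧ CofSeq η w := by
  obtain ⟨h1, h2⟩ := h
  choose! φ hφ using h2
  let p : ℕ → ℕ := fun k => Nat.rec 0 (fun k q => φ (max (v q) (v k))) k
  have hp : ∀ k, p (k+1) = φ (max (v (p k)) (v k)) := fun k => rfl
  have h3 : ∀ k, max (v (p k)) (v k) < v (p (k+1)) := by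
    intro k
    rw [hp]
    exact hφ _ (max_lt (h1 _) (h1 _))
  refine ⟨fun k => v (p k), ?_, fun k => ⟨p k, rfl⟩, fun k => h1 _, ?_⟩
  · apply strictMono_nat_of_lt_succ
    intro k
    exact lt_of_le_of_lt (le_max_left _ _) (h3 k)
  · intro ζ hζ
    exact ⟨φ ζ + 1, (hφ ζ hζ).trans (lt_of_le_of_lt (le_max_right _ _) (h3 _))⟩

lemma exists_max_E (G : K → K) (α : K) : ∃ e ∈ E G, e ≤ α ∧ ∀ e' ∈ E G, e' ≤ α → e' ≤ e := by
  obtain ⟨s, hs⟩ := exists_isLUB (E G ∩ Iic α) ⟨α, fun x hx => hx.2⟩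
  exact ⟨s, E_isLUB inter_subset_left hs, hs.2 fun x hx => hx.2, fun e' h1 h2 => hs.1 ⟨h1, h2⟩⟩

/-- Transfinite iteration along `W` of a modification of functions on `K`. -/
noncomputable def Gs (bad : (K → K) → K → K) (ub : Set K → K) : W → K → K :=
  (wellFounded_lt (α := W)).fix fun ξ r ζ => ub {y | ∃ ξ', ∃ h : ξ' < ξ,
      y = r ξ' h ζ ∨ y = bad (r ξ' h) ζ}

lemma Gs_spec (bad : (K → K) → K → K) : ∃ Gs : W → K → K, ∀ ξ ξ', ξ' < ξ → ∀ ζ,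
    Gs ξ' ζ ≤ Gs ξ ζ ∧ bad (Gs ξ') ζ ≤ Gs ξ ζ := by
  have h1 : ∀ A : Set K, ∃ b, #A ≤ 𝔠 → ∀ x ∈ A, x < b := by
    intro A
    by_cases hA : #A ≤ 𝔠
    · obtain ⟨b, hb⟩ := K_bdd A hA
      exact ⟨b, fun _ => hb⟩
    · exact ⟨⊥, fun h => absurd h hA⟩
  choose ub hub using h1
  refine ⟨Gs bad ub, ?_⟩
  intro ξ ξ' h ζ
  have hcard : #{y | ∃ ξ', ∃ _h : ξ' < ξ,
      y = Gs bad ub ξ' ζ ∨ y = bad (Gs bad ub ξ') ζ} ≤ 𝔠 := by
    have hsub : {y | ∃ ξ', ∃ _h : ξ' < ξ,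
      y = Gs bad ub ξ' ζ ∨ y = bad (Gs bad ub ξ') ζ} ⊆
      range (fun ξ' => Gs bad ub ξ' ζ) ∪ range (fun ξ' => bad (Gs bad ub ξ') ζ) := by
      rintro y ⟨ξ', _, h | h⟩
      · exact Or.inl ⟨ξ', h.symm⟩
      · exact Or.inr ⟨ξ', h.symm⟩
    refine (mk_le_mk_of_subset hsub).trans ((mk_union_le _ _).trans ?_)
    calc _ ≤ #W + #W := add_le_add mk_range_le mk_range_le
      _ ≤ 𝔠 + 𝔠 := add_le_add mk_W_le mk_W_le
      _ = 𝔠 := add_eq_self aleph0_le_continuum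
  have h2 := hub _ hcard
  have h3 : Gs bad ub ξ ζ = ub {y | ∃ ξ', ∃ _h : ξ' < ξ,
      y = Gs bad ub ξ' ζ ∨ y = bad (Gs bad ub ξ') ζ} := by
    unfold Gs
    rw [WellFounded.fix_eq]
  rw [h3]
  exact ⟨(h2 _ ⟨ξ', h, Or.inl rfl⟩).le, (h2 _ ⟨ξ', h, Or.inr rfl⟩).le⟩

/-- Club guessing. -/
theorem guess : ∃ Lad : K → ℕ → K, ∀ (b : K) (G : K → K), ∃ η, StrictMono (Lad η) ∧
    CofSeq η (Lad η) ∧ (∀ n, b < Lad η n) ∧ ∀ n, Lad η n ∈ E G := by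
  classical
  choose m hmE hmle hmax using exists_max_E
  have hC : ∀ η : K, ∃ C : ℕ → K, (∃ v, CofSeq η v) → CofSeq η C := by
    intro η
    by_cases h : ∃ v, CofSeq η v
    · obtain ⟨v, hv⟩ := h
      exact ⟨v, fun _ => hv⟩
    · exact ⟨fun _ => ⊥, fun h' => absurd h' h⟩
  choose C hC using hC
  have key : ∃ G : K → K, ∀ G' : K → K, ∃ η, CofSeq η (fun n => m G (C η n)) ∧
      ∀ n, m G (C η n) ∈ E G' := by
    by_contra hcon
    push Not at hcon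
    choose bad hbad using hcon
    obtain ⟨Gs, hGs⟩ := Gs_spec bad
    choose Gi hGi using fun ζ : K => K_bdd_range mk_W_le (fun ξ : W => Gs ξ ζ)
    have hEi : ∀ ξ, E Gi ⊆ E (Gs ξ) := fun ξ => E_anti fun ζ => (hGi ζ ξ).le
    choose g hgE hg using E_unbounded Gi
    obtain ⟨η, hη, hlt⟩ := exists_lub_iterate g hg (g ⊥)
    have hdE : ∀ n : ℕ, g^[n] (g ⊥) ∈ E Gi := by
      intro n
      cases n with
      | zero => exact hgE _
      | succ n =>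
        rw [Function.iterate_succ_apply']
        exact hgE _
    have hcof : CofSeq η (fun n : ℕ => g^[n] (g ⊥)) := by
      refine ⟨hlt, fun ζ hζ => ?_⟩
      obtain ⟨_, ⟨n, rfl⟩, hn⟩ := (lt_isLUB_iff hη).1 hζ
      exact ⟨n, hn⟩
    have hCη : CofSeq η (C η) := hC η ⟨_, hcof⟩
    have hcofξ : ∀ ξ, CofSeq η (fun n => m (Gs ξ) (C η n)) := by
      intro ξ
      refine ⟨fun n => lt_of_le_of_lt (hmle _ _) (hCη.1 n), fun ζ hζ => ?_⟩
      obtain ⟨k, hk⟩ := hcof.2 ζ hζ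
      obtain ⟨n, hn⟩ := hCη.2 _ (hlt k)
      exact ⟨n, lt_of_lt_of_le hk (hmax _ _ _ (hEi ξ (hdE k)) hn.le)⟩
    have hanti : ∀ ξ ξ', ξ ≤ ξ' → ∀ α, m (Gs ξ') α ≤ m (Gs ξ) α := by
      intro ξ ξ' h α
      rcases h.eq_or_lt with h | h
      · rw [h]
      · exact hmax _ _ _ (E_anti (fun ζ => (hGs ξ' ξ h ζ).1) (hmE _ _)) (hmle _ _)
    have hmin : ∀ n, ∃ ξn, ∀ ξ, m (Gs ξn) (C η n) ≤ m (Gs ξ) (C η n) := by
      intro n
      have hne : (range (fun ξ : W => m (Gs ξ) (C η n))).Nonempty := range_nonempty _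
      obtain ⟨ξn, hξn⟩ := wellFounded_lt.min_mem _ hne
      refine ⟨ξn, fun ξ => ?_⟩
      have h2 := wellFounded_lt.not_lt_min (range (fun ξ : W => m (Gs ξ) (C η n)))
        (x := m (Gs ξ) (C η n)) ⟨ξ, rfl⟩
      simp only at hξn
      rw [hξn]
      exact not_lt.1 h2
    choose ξn hξn using hmin
    obtain ⟨ξs, hξs⟩ := W_bdd_range ξn
    obtain ⟨ξt, hξt⟩ := W_exists_gt ξs
    obtain ⟨n, hn⟩ := hbad (Gs ξs) η (hcofξ ξs)
    apply hn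
    have h3 : m (Gs ξs) (C η n) = m (Gs ξt) (C η n) := by
      apply le_antisymm
      · exact (hanti _ _ (hξs n).le _).trans (hξn n ξt)
      · exact hanti _ _ hξt.le _
    rw [h3]
    exact E_anti (fun ζ => (hGs ξt ξs hξt ζ).2) (hmE _ _)
  obtain ⟨G, hG⟩ := key
  have hL : ∀ η : K, ∃ L : ℕ → K, CofSeq η (fun n => m G (C η n)) →
      StrictMono L ∧ (∀ k, L k ∈ range (fun n => m G (C η n))) ∧ CofSeq η L := by
    intro η
    by_cases h : CofSeq η (fun n => m G (C η n))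
    · obtain ⟨w, hw⟩ := h.exists_strictMono
      exact ⟨w, fun _ => hw⟩
    · exact ⟨fun _ => ⊥, fun h' => absurd h' h⟩
  choose L hL using hL
  refine ⟨fun η n => L η (n + 1), ?_⟩
  intro b G'
  obtain ⟨η, hη, hE⟩ := hG (fun ζ => max (G' ζ) b)
  obtain ⟨h1, h2, h3⟩ := hL η hη
  have h4 : ∀ k, L η k ∈ E (fun ζ => max (G' ζ) b) := by
    intro k
    obtain ⟨n, hn⟩ := h2 k
    rw [← hn]
    exact hE n
  refine ⟨η, fun i j hij => h1 (by omega), ⟨fun n => h3.1 _, fun ζ hζ => ?_⟩, fun n => ?_,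
    fun n => ?_⟩
  · obtain ⟨n, hn⟩ := h3.2 ζ hζ
    exact ⟨n, hn.trans (h1 (Nat.lt_succ_self n))⟩
  · have h5 : ⊥ < L η (n + 1) := lt_of_le_of_lt bot_le (h1 (Nat.lt_succ_self n))
    exact lt_of_le_of_lt (le_max_right _ _) (h4 (n + 1) ⊥ h5)
  · exact E_anti (fun ζ => le_max_left _ _) (h4 (n + 1))

end Pool.Agent.H57.AR
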