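import Pool.Agent.H57.AR.Sysm

/-!
The maximal family of closed sets and the final statement.
-/

set_option autoImplicit false

open Set Filter Topology

namespace Pool.Agent.H57.AR

attribute [local instance] Sys.top t2_P wlc_P

section

variable {P : Type} [Sys P]

/-- The closed large sets. -/
def CL (P : Type) [Sys P] : Set (Set P) := {A | IsClosed A ∧ Large A}

/-- The property of the system obtained from the diamond. -/
def LP (P : Type) [Sys P] : Prop := Large (univ : Set P) ∧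
    ∀ A : ℕ → Set P, (∀ n, Large (A n)) → ∀ f : ℕ → Finset (W ⊕ K) → W ⊕ K,
      ∃ x : P, Cl f (Sys.h x) (Sys.a x) ∧ x ∈ Sys.asg (P := P) ∧
        ∀ n N, ∃ k ≥ N, Sys.b x k ∈ A n

lemma cip (hP : LP P) (A : ℕ → Set P) (hA : ∀ n, A n ∈ CL P) : (⋂ n, A n).Nonempty := by
  obtain ⟨x, _, hxa, hx⟩ := hP.2 A (fun n => (hA n).2) (fun _ _ => Sum.inl ⊥)
  refine ⟨x, mem_iInter.2 fun n => ?_⟩
  rw [← (hA n).1.closure_eq, mem_closure_iff]
  intro U hU hxU
  obtain ⟨N, hN⟩ := eventually_atTop.1 (isOpen_iff'.1 hU x hxU hxa)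
  obtain ⟨k, hk, hkA⟩ := hx n N
  exact ⟨Sys.b x k, hN k hk (b_mem_Vk hxa k), hkA⟩

lemma isClosed_Cl (f : ℕ → Finset (W ⊕ K) → W ⊕ K) :
    IsClosed {x : P | Cl f (Sys.h x) (Sys.a x)} := by
  classical
  refine ⟨?_⟩
  rw [isOpen_iff_mem_nhds]
  intro x hx
  have hx' : ¬ Cl f (Sys.h x) (Sys.a x) := hx
  unfold Cl at hx'
  push Not at hx'
  obtain ⟨n, u, hu, hfu⟩ := hx'
  have hU : IsOpen {y : P | (↑u : Set (W ⊕ K)) ⊆ st (Sys.h y) (Sys.a y)} := by
    have : {y : P | (↑u : Set (W ⊕ K)) ⊆ st (Sys.h y) (Sys.a y)} =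
        ⋂ b ∈ u, {y : P | b ∈ st (Sys.h y) (Sys.a y)} := by
      ext y
      simp [subset_def]
    rw [this]
    refine u.finite_toSet.isOpen_biInter fun b _ => ?_
    rcases b with w | k
    · exact isOpen_gt w
    · exact isOpen_mem k
  filter_upwards [hU.mem_nhds hu, V_mem_nhds x] with y hy1 hy2 hy3
  exact hfu (st_mono (V_sub hy2).2 (V_sub hy2).1 (hy3 n u hy1))

/-- Merging two families of operations. -/
lemma exists_merge (f f' : ℕ → Finset (W ⊕ K) → W ⊕ K) :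
    ∃ f'' : ℕ → Finset (W ⊕ K) → W ⊕ K, ∀ δ a, Cl f'' δ a → Cl f δ a ∧ Cl f' δ a := by
  refine ⟨fun n => if n % 2 = 0 then f (n / 2) else f' (n / 2), fun δ a h => ⟨?_, ?_⟩⟩
  · intro n u hu
    have h1 := h (2 * n) u hu
    beta_reduce at h1
    rw [if_pos (by omega)] at h1
    have h2 : 2 * n / 2 = n := by omega
    rwa [h2] at h1
  · intro n u hu
    have h1 := h (2 * n + 1) u hu
    beta_reduce at h1
    rw [if_neg (by omega)] at h1
    have h2 : (2 * n + 1) / 2 = n := by omega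
    rwa [h2] at h1

lemma Cl_mem_CL (hP : LP P) (f : ℕ → Finset (W ⊕ K) → W ⊕ K) :
    {x : P | Cl f (Sys.h x) (Sys.a x)} ∈ CL P := by
  refine ⟨isClosed_Cl f, fun f' => ?_⟩
  obtain ⟨f'', hf''⟩ := exists_merge f f'
  obtain ⟨x, _, hx⟩ := hP.1 f''
  exact ⟨x, (hf'' _ _ hx).1, (hf'' _ _ hx).2⟩

lemma mem_CL (hP : LP P) (i : K) : {x : P | i ∈ Sys.a x} ∈ CL P := by
  refine ⟨(isClopen_mem i).isClosed, fun f => ?_⟩
  obtain ⟨f'', hf''⟩ := exists_merge f (fun _ _ => Sum.inr i)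
  obtain ⟨x, _, hx⟩ := hP.1 f''
  exact ⟨x, (hf'' _ _ hx).2 0 ∅ (by simp), (hf'' _ _ hx).1⟩

end

theorem main_of (P : Type) [Sys P] (hP : LP P) :
    ∃ (X : Type) (_ : TopologicalSpace X), CompactSpace X ∧ T2Space X ∧
      (∀ S : Set X,
        (∀ f : S → ℝ, Continuous f → ∃ M : ℝ, ∀ x : S, |f x| ≤ M) → IsCompact S) ∧
      ¬ (∀ S : Set X, ∀ F : Set (Set S),
          Maximal (fun G : Set (Set S) =>
              (∀ A ∈ G, IsClosed A) ∧
              ∀ H : Finset (Set S), (↑H : Set (Set S)) ⊆ G →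
                (⋂₀ (↑H : Set (Set S))).Nonempty) F →
          (∀ H : Set (Set S), H ⊆ F → H.Countable → (⋂₀ H).Nonempty) →
          (⋂₀ F).Nonempty) := by
  classical
  refine ⟨OnePoint P, inferInstance, inferInstance, inferInstance,
    fun S hS => onePoint_isCompact_of_PC (PC_of hS), ?_⟩
  intro hall
  let φ : P ≃ₜ (range ((↑) : P → OnePoint P)) :=
    OnePoint.isOpenEmbedding_coe.isEmbedding.toHomeomorph
  let F : Set (Set (range ((↑) : P → OnePoint P))) := {A | φ ⁻¹' A ∈ CL P}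
  have hcount : ∀ H : Set (Set (range ((↑) : P → OnePoint P))), H ⊆ F → H.Countable →
      (⋂₀ H).Nonempty := by
    intro H hH hc
    obtain ⟨x0, _, _⟩ := hP.1 (fun _ _ => Sum.inl ⊥)
    rcases H.eq_empty_or_nonempty with rfl | hne
    · rw [sInter_empty]
      exact ⟨φ x0, mem_univ _⟩
    · obtain ⟨e, rfl⟩ := hc.exists_eq_range hne
      obtain ⟨x, hx⟩ := cip hP (fun n => φ ⁻¹' (e n)) (fun n => hH (mem_range_self n))
      refine ⟨φ x, ?_⟩
      rintro _ ⟨n, rfl⟩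
      exact mem_iInter.1 hx n
  have hF : ∀ A : Set P, A ∈ CL P → φ '' A ∈ F := by
    intro A hA
    change φ ⁻¹' (φ '' A) ∈ CL P
    rwa [preimage_image_eq A φ.injective]
  obtain ⟨y, hy⟩ := hall (range ((↑) : P → OnePoint P)) F (by
    refine ⟨⟨fun A hA => ?_, fun H hH => hcount _ hH H.countable_toSet⟩, ?_⟩
    · exact φ.isClosed_preimage.1 hA.1
    · intro G hG hFG B hB
      change φ ⁻¹' B ∈ CL P
      refine ⟨φ.isClosed_preimage.2 (hG.1 B hB), fun f => ?_⟩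
      by_contra hcon
      push Not at hcon
      have h1 : φ '' {x : P | Cl f (Sys.h x) (Sys.a x)} ∈ G := hFG (hF _ (Cl_mem_CL hP f))
      obtain ⟨z, hz⟩ := hG.2 {B, φ '' {x : P | Cl f (Sys.h x) (Sys.a x)}} (by
        intro C hC
        rcases Finset.mem_insert.1 hC with rfl | hC
        · exact hB
        · rw [Finset.mem_singleton.1 hC]
          exact h1)
      have hz1 : z ∈ B := hz B (by simp)
      have hz2 : z ∈ φ '' {x : P | Cl f (Sys.h x) (Sys.a x)} := hz _ (by simp)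
      obtain ⟨x, hx, rfl⟩ := hz2
      exact hcon x hz1 hx) hcount
  obtain ⟨x, rfl⟩ := φ.surjective y
  obtain ⟨i, hi⟩ := K_bdd_countable (Sys.a x) (Sys.ac x)
  obtain ⟨z, hz, hzx⟩ := hy _ (hF _ (mem_CL hP i))
  have hzx' : z = x := φ.injective hzx
  subst hzx'
  exact lt_irrefl i (hi i hz)

end Pool.Agent.H57.AR
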