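import Pool.Agent.H57.AR.Space

/-!
Pseudocompact subsets of the one-point compactification are compact.
-/

set_option autoImplicit false

open Set Filter Topology

namespace Pool.Agent.H57.AR

section gen

variable {X : Type} [TopologicalSpace X]

/-- Pseudocompactness of a subset, in terms of functions on the whole space. -/
def PC (S : Set X) : Prop := ∀ g : X → ℝ, ContinuousOn g S → ∃ M : ℝ, ∀ x ∈ S, |g x| ≤ M

lemma PC_of {S : Set X} (h : ∀ f : S → ℝ, Continuous f → ∃ M : ℝ, ∀ x : S, |f x| ≤ M) : PC S := by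
  intro g hg
  obtain ⟨M, hM⟩ := h (S.domRestrict g) (continuousOn_iff_continuous_domRestrict.1 hg)
  exact ⟨M, fun x hx => hM ⟨x, hx⟩⟩

/-- Relatively clopen sets. -/
def RC (S C : Set X) : Prop := ∀ x ∈ S, (x ∈ C → C ∈ 𝓝[S] x) ∧ (x ∉ C → Cᶜ ∈ 𝓝[S] x)

lemma RC_of_isClopen {S C : Set X} (hC : IsClopen C) : RC S C := fun _ _ =>
  ⟨fun h => mem_nhdsWithin_of_mem_nhds (hC.isOpen.mem_nhds h),
    fun h => mem_nhdsWithin_of_mem_nhds (hC.compl.isOpen.mem_nhds h)⟩

lemma PC.inter {S C : Set X} (hS : PC S) (hC : RC S C) : PC (S ∩ C) := by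
  classical
  intro g hg
  obtain ⟨M, hM⟩ := hS (C.indicator g) (by
    intro x hx
    by_cases hxC : x ∈ C
    · have h1 := (hC x hx).1 hxC
      have h2 : ContinuousWithinAt g S x := by
        have h3 := hg x ⟨hx, hxC⟩
        rwa [continuousWithinAt_inter' h1] at h3
      refine h2.congr_of_eventuallyEq ?_ (indicator_of_mem hxC g)
      filter_upwards [h1] with y hy
      exact indicator_of_mem hy g
    · have h1 := (hC x hx).2 hxC
      have h2 : ContinuousWithinAt (fun _ : X => (0 : ℝ)) S x := continuousWithinAt_const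
      refine h2.congr_of_eventuallyEq ?_ (indicator_of_notMem hxC g)
      filter_upwards [h1] with y hy
      exact indicator_of_notMem hy g)
  refine ⟨M, fun x hx => ?_⟩
  have := hM x hx.1
  rwa [indicator_of_mem hx.2] at this

lemma PC.exists_nat {S : Set X} (hS : PC S) (O : ℕ → Set X) (hO : ∀ n, RC S (O n))
    (hmono : Monotone O) (hcov : ∀ x ∈ S, ∃ n, x ∈ O n) : ∃ n, S ⊆ O n := by
  classical
  let g : X → ℝ := fun x => if h : ∃ n, x ∈ O n then (Nat.find h : ℝ) else 0
  have hg : ∀ x (h : ∃ n, x ∈ O n), g x = (Nat.find h : ℝ) := fun x h => dif_pos h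
  obtain ⟨M, hM⟩ := hS g (by
    intro x hx
    have hex := hcov x hx
    have h1 : ∀ᶠ y in 𝓝[S] x, y ∈ O (Nat.find hex) := (hO _ x hx).1 (Nat.find_spec hex)
    have h2 : ∀ᶠ y in 𝓝[S] x, ∀ m < Nat.find hex, y ∉ O m := by
      rcases hn : Nat.find hex with _ | n
      · exact Eventually.of_forall fun y m hm => absurd hm (Nat.not_lt_zero m)
      · have h3 : x ∉ O n := Nat.find_min hex (by omega)
        filter_upwards [(hO n x hx).2 h3] with y hy m hm hym
        exact hy (hmono (by omega) hym)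
    have h3 : ContinuousWithinAt (fun _ : X => (Nat.find hex : ℝ)) S x := continuousWithinAt_const
    refine h3.congr_of_eventuallyEq ?_ (hg x hex)
    filter_upwards [h1, h2] with y hy1 hy2
    have hey : ∃ n, y ∈ O n := ⟨_, hy1⟩
    rw [hg y hey]
    have h4 : Nat.find hey = Nat.find hex := by
      rw [Nat.find_eq_iff]
      exact ⟨hy1, hy2⟩
    rw [h4])
  obtain ⟨n, hn⟩ := exists_nat_ge M
  refine ⟨n, fun x hx => ?_⟩
  have hex := hcov x hx
  have h1 := hM x hx
  rw [hg x hex, abs_of_nonneg (Nat.cast_nonneg _)] at h1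
  have h2 : Nat.find hex ≤ n := by exact_mod_cast h1.trans hn
  exact hmono h2 (Nat.find_spec hex)

end gen

lemma cofinal_seq (δ : W) (h0 : ⊥ < δ) : ∃ r : ℕ → W, Monotone r ∧ (∀ n, r n < δ) ∧
    ∀ ξ < δ, ∃ n, ξ ≤ r n := by
  obtain ⟨e, he⟩ := (W_Iio δ).exists_eq_range ⟨⊥, h0⟩
  have he' : ∀ n, e n < δ := by
    intro n
    have : e n ∈ Iio δ := he ▸ mem_range_self n
    exact this
  refine ⟨fun n => (Finset.range (n + 1)).sup e, ?_, ?_, ?_⟩
  · intro i j hij
    exact Finset.sup_mono (Finset.range_mono (by omega))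
  · intro n
    exact (Finset.sup_lt_iff h0).2 fun i _ => he' i
  · intro ξ hξ
    have : ξ ∈ range e := he ▸ hξ
    obtain ⟨n, rfl⟩ := this
    exact ⟨n, Finset.le_sup (Finset.mem_range.2 (Nat.lt_succ_self n))⟩

open Sys

variable {P : Type} [Sys P]

attribute [local instance] Sys.top t2_P wlc_P

lemma bounded_of_PC {S : Set P} (hS : PC S) : ∃ β : W, ∀ y ∈ S, h y ≤ β := by
  by_contra hcon
  push Not at hcon
  choose y hyS hy using hcon
  obtain ⟨γ, hγR, h0, hγ⟩ := statR (P := P) (fun ξ => h (y ξ))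
  obtain ⟨r, hr1, hr2, hr3⟩ := cofinal_seq γ h0
  obtain ⟨n, hn⟩ := hS.exists_nat (fun n => {z : P | h z ≤ r n} ∪ {z : P | γ < h z})
    (fun n => RC_of_isClopen ((isClopen_le _).union (isClopen_gt _)))
    (fun i j hij => union_subset_union_left _ fun z hz => le_trans hz (hr1 hij))
    (fun z _ => by
      have hne : h z ≠ γ := by
        intro h1
        exact notR z (h1 ▸ hγR)
      rcases lt_or_gt_of_ne hne with h1 | h1
      · obtain ⟨n, hn⟩ := hr3 _ h1
        exact ⟨n, Or.inl hn⟩
      · exact ⟨0, Or.inr h1⟩)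
  rcases hn (hyS (r n)) with h1 | h1
  · exact absurd (hy (r n)) (not_lt.2 h1)
  · exact absurd (hγ (r n) (hr2 n)) (not_lt.2 (le_of_lt h1))

/-- The main step: a separable situation. -/
lemma isCompact_of_closure {S D : Set P} {β : W} (hD : D.Countable) (hSD : S ⊆ closure D)
    (hSc : IsClosed S) (hS : PC S) (hβ : ∀ y ∈ S, h y ≤ β) : IsCompact S := by
  classical
  -- the countable clopen family
  let Λ : Set K := ⋃ y ∈ D, a y
  have hΛ : Λ.Countable := hD.biUnion fun y _ => ac y
  let 𝒞 : Set (Set P) := {univ} ∪ (((fun i => {y : P | i ∈ a y}) '' Λ) ∪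
    ((fun i => {y : P | i ∈ a y}ᶜ) '' Λ)) ∪
    (((fun ρ => {y : P | h y ≤ ρ}) '' Iio β) ∪ ((fun ρ => {y : P | h y ≤ ρ}ᶜ) '' Iio β))
  have h𝒞c : 𝒞.Countable :=
    ((countable_singleton _).union ((hΛ.image _).union (hΛ.image _))).union
      (((W_Iio β).image _).union ((W_Iio β).image _))
  have h𝒞 : ∀ C ∈ 𝒞, IsClopen C := by
    rintro C ((rfl | ⟨i, _, rfl⟩ | ⟨i, _, rfl⟩) | ⟨ρ, _, rfl⟩ | ⟨ρ, _, rfl⟩)
    · exact isClopen_univ
    · exact isClopen_mem i
    · exact (isClopen_mem i).compl
    · exact isClopen_le ρ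
    · exact (isClopen_le ρ).compl
  have hmemΛ : ∀ x ∈ S, ∀ i ∈ a x, i ∈ Λ := by
    intro x hx i hi
    obtain ⟨y, hy1, hy2⟩ := mem_closure_iff.1 (hSD hx) _ (isOpen_mem i) hi
    exact mem_biUnion hy2 hy1
  have hsep : ∀ x ∈ S, ∀ y ∈ S, x ≠ y → ∃ C ∈ 𝒞, x ∈ C ∧ y ∉ C := by
    intro x hx y hy hxy
    by_cases ha : a x = a y
    · have hh : h x ≠ h y := fun h1 => hxy (inj x y h1 ha)
      rcases lt_or_gt_of_ne hh with h1 | h1
      · exact ⟨{z | h z ≤ h x}, Or.inr (Or.inl ⟨h x, lt_of_lt_of_le h1 (hβ y hy), rfl⟩),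
          le_refl (h x), not_le.2 h1⟩
      · exact ⟨{z | h z ≤ h y}ᶜ, Or.inr (Or.inr ⟨h y, lt_of_lt_of_le h1 (hβ x hx), rfl⟩),
          not_le.2 h1, fun h2 => h2 (le_refl (h y))⟩
    · by_cases h1 : ∃ i, i ∈ a x ∧ i ∉ a y
      · obtain ⟨i, h2, h3⟩ := h1
        exact ⟨{z | i ∈ a z}, Or.inl (Or.inr (Or.inl ⟨i, hmemΛ x hx i h2, rfl⟩)), h2, h3⟩
      · push Not at h1
        have h2 : ∃ i, i ∈ a y ∧ i ∉ a x := by
          by_contra h3
          push Not at h3
          exact ha (Subset.antisymm h1 h3)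
        obtain ⟨i, h3, h4⟩ := h2
        exact ⟨{z | i ∈ a z}ᶜ, Or.inl (Or.inr (Or.inr ⟨i, hmemΛ y hy i h3, rfl⟩)), h4,
          fun h5 => h5 h3⟩
  let 𝓑 : Set (Set P) := (fun T : Set (Set P) => ⋂₀ T) '' {T | T.Finite ∧ T ⊆ 𝒞}
  have h𝓑c : 𝓑.Countable := (countable_ofPred_finite_subset h𝒞c).image _
  have h𝓑 : ∀ B ∈ 𝓑, IsClopen B := by
    rintro _ ⟨T, ⟨hT1, hT2⟩, rfl⟩
    simp only [sInter_eq_biInter]
    exact hT1.isClopen_biInter fun C hC => h𝒞 C (hT2 hC)
  have hloc : ∀ x ∈ S, ∃ B ∈ 𝓑, x ∈ B ∧ B ∩ S ⊆ V x := by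
    intro x hx
    obtain ⟨e, he⟩ := (h𝒞c.mono (inter_subset_left (t := {C | x ∈ C}))).exists_eq_range
      ⟨univ, Or.inl (Or.inl rfl), mem_univ x⟩
    have he' : ∀ n, e n ∈ 𝒞 ∧ x ∈ e n := by
      intro n
      have : e n ∈ 𝒞 ∩ {C | x ∈ C} := he ▸ mem_range_self n
      exact this
    have hB : ∀ n, ⋂₀ (e '' Iic n) ∈ 𝓑 := fun n =>
      ⟨e '' Iic n, ⟨(finite_Iic n).image e, by rintro _ ⟨j, _, rfl⟩; exact (he' j).1⟩, rfl⟩
    obtain ⟨n, hn⟩ := hS.exists_nat (fun n => V x ∪ (⋂₀ (e '' Iic n))ᶜ)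
      (fun n => RC_of_isClopen ((isClopen_V x).union (h𝓑 _ (hB n)).compl))
      (fun i j hij => union_subset_union_right _ (compl_subset_compl.2
        (sInter_subset_sInter (image_mono (Iic_subset_Iic.2 hij)))))
      (fun y hy => by
        by_cases hxy : x = y
        · subst hxy
          exact ⟨0, Or.inl (self_mem_V x)⟩
        · obtain ⟨C, hC, h1, h2⟩ := hsep x hx y hy hxy
          have h3 : C ∈ range e := he ▸ ⟨hC, h1⟩
          obtain ⟨n, rfl⟩ := h3
          refine ⟨n, Or.inr fun h4 => h2 ?_⟩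
          exact h4 _ ⟨n, mem_Iic.2 le_rfl, rfl⟩)
    refine ⟨_, hB n, ?_, ?_⟩
    · rintro _ ⟨j, _, rfl⟩
      exact (he' j).2
    · rintro y ⟨hy1, hy2⟩
      rcases hn hy2 with h1 | h1
      · exact h1
      · exact absurd hy1 h1
  rcases S.eq_empty_or_nonempty with hne | ⟨x0, hx0⟩
  · rw [hne]
    exact isCompact_empty
  · have hGc : (𝓑 ∩ {B | ∃ x, B ∩ S ⊆ V x}).Countable := h𝓑c.mono inter_subset_left
    obtain ⟨B0, hB0, _, hB0'⟩ := hloc x0 hx0
    obtain ⟨G, hG⟩ := hGc.exists_eq_range ⟨B0, hB0, x0, hB0'⟩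
    have hG' : ∀ n, G n ∈ 𝓑 ∧ ∃ x, G n ∩ S ⊆ V x := by
      intro n
      have : G n ∈ 𝓑 ∩ {B | ∃ x, B ∩ S ⊆ V x} := hG ▸ mem_range_self n
      exact this
    obtain ⟨n, hn⟩ := hS.exists_nat (fun n => ⋃ j ∈ Iic n, G j)
      (fun n => RC_of_isClopen ((finite_Iic n).isClopen_biUnion fun j _ => h𝓑 _ (hG' j).1))
      (fun i j hij => biUnion_subset_biUnion_left (Iic_subset_Iic.2 hij))
      (fun y hy => by
        obtain ⟨B, hB, hyB, hBV⟩ := hloc y hy
        have h3 : B ∈ range G := hG ▸ ⟨hB, y, hBV⟩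
        obtain ⟨n, rfl⟩ := h3
        exact ⟨n, mem_biUnion (mem_Iic.2 le_rfl) hyB⟩)
    choose xx hxx using fun n => (hG' n).2
    have hcpt : IsCompact (⋃ j ∈ Iic n, V (xx j)) :=
      (finite_Iic n).isCompact_biUnion fun j _ => isCompact_V _
    refine hcpt.of_isClosed_subset hSc ?_
    intro y hy
    obtain ⟨j, hj, hyj⟩ := mem_iUnion₂.1 (hn hy)
    exact mem_biUnion hj (hxx j ⟨hyj, hy⟩)

theorem isCompact_of_PC_bounded (β : W) : ∀ S : Set P, IsClosed S → PC S → (∀ y ∈ S, h y ≤ β) →
    IsCompact S := by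
  classical
  induction β using WellFoundedLT.induction with
  | ind β ih =>
    intro S hSc hS hβ
    let D : Set P := {y | y ∈ S ∧ h y < β}
    have hD : D.Countable := by
      have h1 : D ⊆ ⋃ δ ∈ Iio β, (S ∩ {y | h y ≤ δ}) := by
        rintro y ⟨hy1, hy2⟩
        exact mem_biUnion (mem_Iio.2 hy2) ⟨hy1, le_refl (h y)⟩
      refine Countable.mono h1 ((W_Iio β).biUnion fun δ hδ => ?_)
      apply countable_of_isCompact
      exact ih δ hδ _ (hSc.inter (isClopen_le δ).isClosed)
        (hS.inter (RC_of_isClopen (isClopen_le δ))) (fun y hy => hy.2)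
    have hDS : D ⊆ S := fun y hy => hy.1
    have hVx : ∀ x ∈ S, V x ∩ S ⊆ insert x D := by
      rintro x hx y ⟨hy1, hy2⟩
      by_cases hxy : y = x
      · exact Or.inl hxy
      · exact Or.inr ⟨hy2, lt_of_lt_of_le (V_lt hy1 hxy) (hβ x hx)⟩
    have hRC : RC S (closure D) := by
      intro x hx
      constructor
      · intro hxD
        have h1 : V x ∈ 𝓝[S] x := mem_nhdsWithin_of_mem_nhds (V_mem_nhds x)
        filter_upwards [h1, self_mem_nhdsWithin] with y hy1 hy2
        rcases hVx x hx ⟨hy1, hy2⟩ with rfl | h2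
        · exact hxD
        · exact subset_closure h2
      · intro hxD
        exact mem_nhdsWithin_of_mem_nhds (isClosed_closure.isOpen_compl.mem_nhds hxD)
    have hiso : ∀ x ∈ S, x ∉ closure D → ({x} : Set P) ∈ 𝓝[S] x := by
      intro x hx hxD
      have h1 : V x ∈ 𝓝[S] x := mem_nhdsWithin_of_mem_nhds (V_mem_nhds x)
      filter_upwards [h1, self_mem_nhdsWithin, (hRC x hx).2 hxD] with y hy1 hy2 hy3
      rcases hVx x hx ⟨hy1, hy2⟩ with rfl | h2
      · exact rfl
      · exact absurd (subset_closure h2) hy3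
    have hfin : (S \ closure D).Finite := by
      by_contra hinf
      let e := Set.Infinite.natEmbedding _ hinf
      have heS : ∀ m, (e m).1 ∈ S := fun m => (e m).2.1
      obtain ⟨n, hn⟩ := hS.exists_nat (fun n => {y : P | ∀ m ≥ n, y ≠ (e m).1}) (fun n => by
        intro x hx
        constructor
        · intro hxB
          by_cases hxD : x ∈ closure D
          · filter_upwards [(hRC x hx).1 hxD] with y hy m hm hym
            exact (e m).2.2 (hym ▸ hy)
          · filter_upwards [hiso x hx hxD] with y hy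
            rw [mem_singleton_iff] at hy
            rw [hy]
            exact hxB
        · intro hxB
          have hxE : x ∉ closure D := by
            intro hxD
            apply hxB
            intro m hm hxm
            exact (e m).2.2 (hxm ▸ hxD)
          filter_upwards [hiso x hx hxE] with y hy
          rw [mem_singleton_iff] at hy
          rw [hy]
          exact hxB)
        (fun i j hij y hy m hm => hy m (hij.trans hm))
        (fun y hy => by
          by_cases hex : ∃ m, y = (e m).1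
          · obtain ⟨m, hm⟩ := hex
            refine ⟨m + 1, fun j hj hyj => ?_⟩
            have h1 : m = j := e.injective (Subtype.ext (hm.symm.trans hyj))
            omega
          · push Not at hex
            exact ⟨0, fun m _ => hex m⟩)
      exact hn (heS n) n le_rfl rfl
    have h1 : IsCompact (S ∩ closure D) := by
      refine isCompact_of_closure hD inter_subset_right (hSc.inter isClosed_closure)
        (hS.inter hRC) (β := β) (fun y hy => hβ y hy.1)
    have h2 : S = (S ∩ closure D) ∪ (S \ closure D) := (inter_union_sdiff S _).symm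
    rw [h2]
    exact h1.union hfin.isCompact

theorem isCompact_of_PC {S : Set P} (hSc : IsClosed S) (hS : PC S) : IsCompact S := by
  obtain ⟨β, hβ⟩ := bounded_of_PC hS
  exact isCompact_of_PC_bounded β S hSc hS hβ

lemma isClopen_image_coe {C : Set P} (hC : IsCompact C) (hCo : IsOpen C) :
    IsClopen ((↑) '' C : Set (OnePoint P)) :=
  ⟨(hC.image OnePoint.continuous_coe).isClosed, OnePoint.isOpen_image_coe.2 hCo⟩

theorem onePoint_isCompact_of_PC {S : Set (OnePoint P)} (hS : PC S) : IsCompact S := by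
  classical
  have step : ∀ x : P, (↑x : OnePoint P) ∉ S → (↑x : OnePoint P) ∉ closure S := by
    intro x hx
    by_cases hxa : x ∈ asg (P := P)
    · obtain ⟨n, hn⟩ := hS.exists_nat
        (fun n => ((↑) '' (V x) : Set (OnePoint P))ᶜ ∪ ⋃ k ∈ Iic n, ((↑) '' (Vk x k)))
        (fun n => RC_of_isClopen ((isClopen_image_coe (isCompact_V x) (isOpen_V x)).compl.union
          ((finite_Iic n).isClopen_biUnion fun k _ =>
            isClopen_image_coe (isCompact_Vk x k) (isOpen_Vk x k))))
        (fun i j hij => union_subset_union_right _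
          (biUnion_subset_biUnion_left (Iic_subset_Iic.2 hij)))
        (fun y hy => by
          by_cases hyV : y ∈ ((↑) '' (V x) : Set (OnePoint P))
          · obtain ⟨z, hz, rfl⟩ := hyV
            rcases mem_V_iff.1 hz with rfl | ⟨_, k, hk⟩
            · exact absurd hy hx
            · exact ⟨k, Or.inr (mem_biUnion (mem_Iic.2 le_rfl) ⟨z, hk, rfl⟩)⟩
          · exact ⟨0, Or.inl hyV⟩)
      have hcl : IsClosed (((↑) '' (V x) : Set (OnePoint P))ᶜ ∪
          ⋃ k ∈ Iic n, ((↑) '' (Vk x k) : Set (OnePoint P))) :=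
        ((isClopen_image_coe (isCompact_V x) (isOpen_V x)).compl.union
          ((finite_Iic n).isClopen_biUnion fun k _ =>
            isClopen_image_coe (isCompact_Vk x k) (isOpen_Vk x k))).isClosed
      intro hxc
      rcases closure_minimal hn hcl hxc with h1 | h1
      · exact h1 ⟨x, self_mem_V x, rfl⟩
      · obtain ⟨k, _, z, hz, hzx⟩ := mem_iUnion₂.1 h1
        have hzx' : z = x := OnePoint.coe_injective hzx
        subst hzx'
        exact lt_irrefl _ (Vk_lt hxa hz)
    · have hV : V x = {x} := by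
        ext y
        rw [mem_V_iff]
        constructor
        · rintro (h1 | h1)
          · exact h1
          · exact absurd h1.1 hxa
        · intro h1
          exact Or.inl h1
      have h1 : IsOpen ((↑) '' (V x) : Set (OnePoint P)) := OnePoint.isOpen_image_coe.2 (isOpen_V x)
      intro hxc
      obtain ⟨y, hy1, hy2⟩ := mem_closure_iff.1 hxc _ h1 ⟨x, self_mem_V x, rfl⟩
      obtain ⟨z, hz, rfl⟩ := hy1
      rw [hV] at hz
      rw [mem_singleton_iff.1 hz] at hy2
      exact hx hy2
  by_cases hinf : OnePoint.infty ∈ S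
  · apply IsClosed.isCompact
    apply isClosed_of_closure_subset
    intro y hy
    induction y using OnePoint.rec with
    | infty => exact hinf
    | coe x =>
      by_contra hx
      exact step x hx hy
  · let T : Set P := (↑) ⁻¹' S
    have hST : S = (↑) '' T := by
      apply Subset.antisymm
      · intro y hy
        induction y using OnePoint.rec with
        | infty => exact absurd hy hinf
        | coe x => exact ⟨x, hy, rfl⟩
      · rintro _ ⟨x, hx, rfl⟩
        exact hx
    have hTc : IsClosed T := by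
      apply isClosed_of_closure_subset
      intro x hx
      by_contra hxT
      apply step x hxT
      have h1 := image_closure_subset_closure_image (OnePoint.continuous_coe (X := P)) (s := T)
      rw [← hST] at h1
      exact h1 ⟨x, hx, rfl⟩
    have hT : PC T := by
      intro g hg
      obtain ⟨M, hM⟩ := hS (fun y => OnePoint.elim y 0 g) (by
        intro y hy
        rw [hST] at hy
        obtain ⟨x, hx, rfl⟩ := hy
        rw [hST]
        unfold ContinuousWithinAt
        rw [OnePoint.nhdsWithin_coe_image, tendsto_map'_iff]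
        exact hg x hx)
      exact ⟨M, fun x hx => hM (↑x) hx⟩
    rw [hST]
    exact (isCompact_of_PC hTc hT).image OnePoint.continuous_coe

end Pool.Agent.H57.AR
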