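import Pool.Agent.H57.AR.Stat

/-!
The locally compact scattered spaces given by a system of neighbourhoods.
-/

set_option autoImplicit false

open Set Cardinal Filter Topology

namespace Pool.Agent.H57.AR

/-- A system of points with a height in `W`, a countable subset of `K`, and, for the assigned
points, a sequence of lower points with the tails used to define neighbourhoods. -/
class Sys (P : Type) where
  h : P → W
  a : P → Set K
  asg : Set P
  b : P → ℕ → P
  F : P → ℕ → Finset K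
  r : P → ℕ → W
  sub : ∀ x ∈ asg, ∀ k, a (b x k) ⊆ a x
  hlt : ∀ x ∈ asg, ∀ k, h (b x k) < h x
  rlt : ∀ x ∈ asg, ∀ k, r x k < h (b x k)
  Fsub : ∀ x ∈ asg, ∀ k, (↑(F x k) : Set K) ⊆ a (b x k)
  Fev : ∀ x ∈ asg, ∀ i ∈ a x, ∀ᶠ k in atTop, i ∈ F x k
  rev : ∀ x ∈ asg, ∀ ξ < h x, ∀ᶠ k in atTop, ξ ≤ r x k
  inj : ∀ x y, h x = h y → a x = a y → x = y
  ac : ∀ x, (a x).Countable
  R : Set W
  statR : Stat R
  notR : ∀ x, h x ∉ R

open Sys

variable {P : Type} [Sys P]

/-- The relation defining the basic neighbourhoods. -/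
inductive InV : P → P → Prop
  | refl (x : P) : InV x x
  | step (x : P) (hx : x ∈ asg (P := P)) (k : ℕ) (y : P) (hy : InV (b x k) y)
      (hF : (↑(F x k) : Set K) ⊆ a y) (hr : r x k < h y) : InV x y

lemma ind_h {p : P → Prop} (hp : ∀ x, (∀ y, h y < h x → p y) → p x) (x : P) : p x :=
  (InvImage.wf (h : P → W) wellFounded_lt).induction x hp

/-- Basic compact open neighbourhood. -/
def V (x : P) : Set P := {y | InV x y}

/-- The `k`-th piece of the basic neighbourhood. -/
def Vk (x : P) (k : ℕ) : Set P := {y | y ∈ V (b x k) ∧ (↑(F x k) : Set K) ⊆ a y ∧ r x k < h y}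

lemma self_mem_V (x : P) : x ∈ V x := InV.refl x

lemma mem_V_iff {x y : P} : y ∈ V x ↔ y = x ∨ (x ∈ asg (P := P) ∧ ∃ k, y ∈ Vk x k) := by
  constructor
  · intro hy
    cases hy with
    | refl => exact Or.inl rfl
    | step _ hx k _ hy hF hr => exact Or.inr ⟨hx, k, hy, hF, hr⟩
  · rintro (rfl | ⟨hx, k, hy, hF, hr⟩)
    · exact InV.refl _
    · exact InV.step x hx k y hy hF hr

lemma Vk_subset_V {x : P} (hx : x ∈ asg (P := P)) (k : ℕ) : Vk x k ⊆ V x :=
  fun _ hy => mem_V_iff.2 (Or.inr ⟨hx, k, hy⟩)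

lemma V_sub {x y : P} (hy : y ∈ V x) : a y ⊆ a x ∧ h y ≤ h x := by
  induction hy with
  | refl x => exact ⟨Subset.rfl, le_rfl⟩
  | step x hx k y _ _ _ ih =>
    exact ⟨ih.1.trans (sub x hx k), ih.2.trans (hlt x hx k).le⟩

lemma Vk_lt {x y : P} (hx : x ∈ asg (P := P)) {k : ℕ} (hy : y ∈ Vk x k) : h y < h x :=
  lt_of_le_of_lt (V_sub hy.1).2 (hlt x hx k)

lemma V_lt {x y : P} (hy : y ∈ V x) (hne : y ≠ x) : h y < h x := by
  rcases mem_V_iff.1 hy with h1 | ⟨hx, k, hk⟩
  · exact absurd h1 hne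
  · exact Vk_lt hx hk

lemma b_mem_Vk {x : P} (hx : x ∈ asg (P := P)) (k : ℕ) : b x k ∈ Vk x k :=
  ⟨self_mem_V _, Fsub x hx k, rlt x hx k⟩

/-- The topology. -/
@[reducible] def Sys.top (P : Type) [Sys P] : TopologicalSpace P where
  IsOpen U := ∀ x ∈ U, x ∈ asg (P := P) → ∀ᶠ k in atTop, Vk x k ⊆ U
  isOpen_univ := fun x _ _ => Eventually.of_forall fun k => subset_univ _
  isOpen_inter := fun U U' hU hU' x hx hxa =>
    ((hU x hx.1 hxa).and (hU' x hx.2 hxa)).mono fun _ hk => subset_inter hk.1 hk.2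
  isOpen_sUnion := fun 𝒰 h𝒰 x hx hxa => by
    obtain ⟨U, hU, hxU⟩ := hx
    exact (h𝒰 U hU x hxU hxa).mono fun _ hk => hk.trans (subset_sUnion_of_mem hU)

attribute [local instance] Sys.top

lemma isOpen_iff' {U : Set P} :
    IsOpen U ↔ ∀ x ∈ U, x ∈ asg (P := P) → ∀ᶠ k in atTop, Vk x k ⊆ U := Iff.rfl

lemma isOpen_mem (i : K) : IsOpen {y : P | i ∈ a y} := by
  rw [isOpen_iff']
  intro x hx hxa
  refine (Fev x hxa i hx).mono fun k hk y hy => ?_
  exact hy.2.1 hk

lemma isOpen_gt (ρ : W) : IsOpen {y : P | ρ < h y} := by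
  rw [isOpen_iff']
  intro x hx hxa
  refine (rev x hxa ρ hx).mono fun k hk y hy => ?_
  exact lt_of_le_of_lt hk hy.2.2

lemma isOpen_of_V {U : Set P} (hU : ∀ x ∈ U, V x ⊆ U) : IsOpen U := by
  rw [isOpen_iff']
  intro x hx hxa
  exact Eventually.of_forall fun k => (Vk_subset_V hxa k).trans (hU x hx)

lemma isClopen_mem (i : K) : IsClopen {y : P | i ∈ a y} := by
  refine ⟨⟨?_⟩, isOpen_mem i⟩
  apply isOpen_of_V
  intro x hx y hy hiy
  exact hx ((V_sub hy).1 hiy)

lemma isClopen_gt (ρ : W) : IsClopen {y : P | ρ < h y} := by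
  refine ⟨⟨?_⟩, isOpen_gt ρ⟩
  apply isOpen_of_V
  intro x hx y hy hiy
  exact hx (lt_of_lt_of_le hiy (V_sub hy).2)

lemma isClopen_le (ρ : W) : IsClopen {y : P | h y ≤ ρ} := by
  have : {y : P | h y ≤ ρ} = {y : P | ρ < h y}ᶜ := by
    ext y
    simp
  rw [this]
  exact (isClopen_gt ρ).compl

lemma isOpen_lt' (β : W) : IsOpen {y : P | h y < β} := by
  apply isOpen_of_V
  intro x hx y hy
  exact lt_of_le_of_lt (V_sub hy).2 hx

lemma isClopen_Fsub (G : Finset K) : IsClopen {y : P | (↑G : Set K) ⊆ a y} := by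
  classical
  have : {y : P | (↑G : Set K) ⊆ a y} = ⋂ i ∈ G, {y : P | i ∈ a y} := by
    ext y
    simp [subset_def]
  rw [this]
  exact G.finite_toSet.isClopen_biInter fun i _ => isClopen_mem i

lemma Vk_eq (x : P) (k : ℕ) : Vk x k =
    V (b x k) ∩ ({y | (↑(F x k) : Set K) ⊆ a y} ∩ {y | r x k < h y}) := rfl

lemma isOpen_V (x : P) : IsOpen (V x) := by
  induction x using ind_h with
  | hp x ih =>
    rw [isOpen_iff']
    intro y hy hya
    rcases mem_V_iff.1 hy with rfl | ⟨hxa, k, hk⟩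
    · exact Eventually.of_forall fun k => Vk_subset_V hya k
    · have h1 : IsOpen (Vk x k) := by
        rw [Vk_eq]
        exact (ih (b x k) (hlt x hxa k)).inter
          ((isClopen_Fsub _).isOpen.inter (isClopen_gt _).isOpen)
      exact (isOpen_iff'.1 h1 y hk hya).mono fun j hj => hj.trans (Vk_subset_V hxa k)

lemma isOpen_Vk (x : P) (k : ℕ) : IsOpen (Vk x k) := by
  rw [Vk_eq]
  exact (isOpen_V _).inter ((isClopen_Fsub _).isOpen.inter (isClopen_gt _).isOpen)

lemma isCompact_V (x : P) : IsCompact (V x) := by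
  classical
  induction x using ind_h with
  | hp x ih =>
    by_cases hxa : x ∈ asg (P := P)
    · have hk : ∀ k, IsCompact (Vk x k) := by
        intro k
        rw [Vk_eq]
        exact (ih (b x k) (hlt x hxa k)).inter_right
          ((isClopen_Fsub _).isClosed.inter (isClopen_gt _).isClosed)
      apply isCompact_of_finite_subcover
      intro ι U hU hcov
      obtain ⟨i0, hi0⟩ := mem_iUnion.1 (hcov (self_mem_V x))
      obtain ⟨N, hN⟩ := eventually_atTop.1 (isOpen_iff'.1 (hU i0) x hi0 hxa)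
      have hc : IsCompact (⋃ k ∈ Finset.range N, Vk x k) :=
        (Finset.range N).isCompact_biUnion fun k _ => hk k
      obtain ⟨t, ht⟩ := hc.elim_finite_subcover U hU
        ((iUnion₂_subset fun k _ => Vk_subset_V hxa k).trans hcov)
      refine ⟨insert i0 t, fun y hy => ?_⟩
      rcases mem_V_iff.1 hy with rfl | ⟨_, k, hky⟩
      · exact mem_iUnion₂.2 ⟨i0, Finset.mem_insert_self _ _, hi0⟩
      · rcases lt_or_ge k N with hkN | hkN
        · obtain ⟨i, hi, hyi⟩ := mem_iUnion₂.1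
            (ht (mem_iUnion₂.2 ⟨k, Finset.mem_range.2 hkN, hky⟩))
          exact mem_iUnion₂.2 ⟨i, Finset.mem_insert_of_mem hi, hyi⟩
        · exact mem_iUnion₂.2 ⟨i0, Finset.mem_insert_self _ _, hN k hkN hky⟩
    · have : V x = {x} := by
        ext y
        rw [mem_V_iff]
        constructor
        · rintro (h1 | h1)
          · exact h1
          · exact absurd h1.1 hxa
        · intro h1
          exact Or.inl h1
      rw [this]
      exact isCompact_singleton

lemma countable_V (x : P) : (V x).Countable := by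
  induction x using ind_h with
  | hp x ih =>
    by_cases hxa : x ∈ asg (P := P)
    · have h1 : V x ⊆ insert x (⋃ k, V (b x k)) := by
        intro y hy
        rcases mem_V_iff.1 hy with rfl | ⟨_, k, hky⟩
        · exact mem_insert _ _
        · exact mem_insert_of_mem _ (mem_iUnion.2 ⟨k, hky.1⟩)
      refine Countable.mono h1 (Countable.insert _ (countable_iUnion fun k => ?_))
      exact ih (b x k) (hlt x hxa k)
    · have : V x ⊆ {x} := by
        intro y hy
        rcases mem_V_iff.1 hy with h1 | h1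
        · exact h1
        · exact absurd h1.1 hxa
      exact (countable_singleton x).mono this

lemma exists_clopen_sep {x y : P} (hxy : x ≠ y) :
    ∃ C : Set P, IsClopen C ∧ x ∈ C ∧ y ∉ C := by
  by_cases ha : a x = a y
  · have hh : h x ≠ h y := fun h1 => hxy (inj x y h1 ha)
    rcases lt_or_gt_of_ne hh with h1 | h1
    · exact ⟨{z | h z ≤ h x}, isClopen_le _, le_refl (h x), not_le.2 h1⟩
    · exact ⟨{z | h y < h z}, isClopen_gt _, h1, lt_irrefl (h y)⟩
  · by_cases h1 : ∃ i, i ∈ a x ∧ i ∉ a y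
    · obtain ⟨i, h2, h3⟩ := h1
      exact ⟨{z | i ∈ a z}, isClopen_mem i, h2, h3⟩
    · push Not at h1
      have h2 : ∃ i, i ∈ a y ∧ i ∉ a x := by
        by_contra h3
        push Not at h3
        exact ha (Subset.antisymm h1 h3)
      obtain ⟨i, h3, h4⟩ := h2
      exact ⟨{z | i ∈ a z}ᶜ, (isClopen_mem i).compl, h4, fun h5 => h5 h3⟩

lemma t2_P : T2Space P := by
  refine ⟨fun x y hxy => ?_⟩
  obtain ⟨C, hC, hx, hy⟩ := exists_clopen_sep hxy
  exact ⟨C, Cᶜ, hC.isOpen, hC.compl.isOpen, hx, hy, disjoint_compl_right⟩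

lemma V_mem_nhds (x : P) : V x ∈ 𝓝 x := (isOpen_V x).mem_nhds (self_mem_V x)

lemma wlc_P : WeaklyLocallyCompactSpace P :=
  ⟨fun x => ⟨V x, isCompact_V x, V_mem_nhds x⟩⟩

attribute [local instance] t2_P wlc_P

lemma isClopen_V (x : P) : IsClopen (V x) := ⟨(isCompact_V x).isClosed, isOpen_V x⟩

lemma isCompact_Vk (x : P) (k : ℕ) : IsCompact (Vk x k) := by
  rw [Vk_eq]
  exact (isCompact_V _).inter_right ((isClopen_Fsub _).isClosed.inter (isClopen_gt _).isClosed)

lemma countable_of_isCompact {S : Set P} (hS : IsCompact S) : S.Countable := by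
  obtain ⟨t, _, ht⟩ := hS.elim_nhds_subcover V (fun x _ => V_mem_nhds x)
  exact (t.countable_toSet.biUnion fun x _ => countable_V x).mono ht

end Pool.Agent.H57.AR
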