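import Pool.Agent.H57.AR.Base

/-!
Stationary subsets of `W` and countable closures.
-/

set_option autoImplicit false

open Set Cardinal

namespace Pool.Agent.H57.AR

/-- Stationary subsets of `W`. -/
def Stat (S : Set W) : Prop := ∀ F : W → W, ∃ δ ∈ S, ⊥ < δ ∧ ∀ ξ < δ, F ξ < δ

lemma not_stat_iUnion (A : ℕ → Set W) (h : ∀ n, ¬ Stat (A n)) : ¬ Stat (⋃ n, A n) := by
  unfold Stat at *
  push Not at *
  choose F hF using h
  choose G hG using fun ξ : W => W_bdd_range (fun n => F n ξ)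
  refine ⟨G, ?_⟩
  intro δ hδ hpos
  obtain ⟨n, hn⟩ := mem_iUnion.1 hδ
  obtain ⟨ξ, h1, h2⟩ := hF n δ hn hpos
  exact ⟨ξ, h1, h2.trans (hG ξ n).le⟩

lemma stat_univ : Stat univ := by
  intro F
  have step : ∀ x : W, ∃ y, x < y ∧ ∀ ξ ≤ x, F ξ < y := by
    intro x
    have h1 : (Iic x).Countable := by
      have : Iic x = insert x (Iio x) := by
        ext y
        simp [le_iff_eq_or_lt]
      rw [this]
      exact (W_Iio x).insert x
    have hc : (insert x (F '' Iic x)).Countable := (h1.image F).insert x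
    obtain ⟨b, hb⟩ := W_bdd _ hc
    exact ⟨b, hb x (mem_insert _ _), fun ξ hξ => hb _ (mem_insert_of_mem _ ⟨ξ, hξ, rfl⟩)⟩
  choose g hg1 hg2 using step
  obtain ⟨b, hb⟩ := W_bdd_range (fun n : ℕ => g^[n] ⊥)
  obtain ⟨δ, hδ⟩ := exists_isLUB (range (fun n : ℕ => g^[n] ⊥))
    ⟨b, by rintro _ ⟨n, rfl⟩; exact (hb n).le⟩
  have hlt : ∀ n : ℕ, g^[n] ⊥ < δ := by
    intro n
    have h1 : g^[n] ⊥ < g^[n+1] ⊥ := by
      rw [Function.iterate_succ_apply']
      exact hg1 _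
    exact lt_of_lt_of_le h1 (hδ.1 ⟨n + 1, rfl⟩)
  refine ⟨δ, mem_univ _, hlt 0, ?_⟩
  intro ξ hξ
  obtain ⟨_, ⟨n, rfl⟩, hn⟩ := (lt_isLUB_iff hδ).1 hξ
  have h2 : F ξ < g^[n+1] ⊥ := by
    rw [Function.iterate_succ_apply']
    exact hg2 _ _ (le_of_lt hn)
  exact h2.trans (hlt _)

lemma stat_Ioi (ξ : W) : Stat (Ioi ξ) := by
  intro F
  obtain ⟨δ, _, h1, h2⟩ := stat_univ (fun x => max (F x) ξ)
  refine ⟨δ, ?_, h1, fun x hx => lt_of_le_of_lt (le_max_left _ _) (h2 x hx)⟩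
  exact lt_of_le_of_lt (le_max_right _ _) (h2 ⊥ h1)

lemma exists_disjoint_stat : ∃ R S : Set W, Stat R ∧ Stat S ∧ Disjoint R S := by
  have h0 : ∀ α : W, ∃ f : W → ℕ, InjOn f (Iio α) := fun α =>
    countable_iff_exists_injOn.1 (W_Iio α)
  choose e he using h0
  have h1 : ∀ ξ : W, ∃ n : ℕ, Stat {α | ξ < α ∧ e α ξ = n} := by
    intro ξ
    by_contra hcon
    push Not at hcon
    apply not_stat_iUnion _ hcon
    have : (⋃ n : ℕ, {α | ξ < α ∧ e α ξ = n}) = Ioi ξ := by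
      ext α
      simp
    rw [this]
    exact stat_Ioi ξ
  choose ν hν using h1
  have h2 : ¬ Function.Injective ν := by
    intro hinj
    have hc : (univ : Set W).Countable := countable_iff_exists_injOn.2 ⟨ν, hinj.injOn⟩
    obtain ⟨b, hb⟩ := W_bdd _ hc
    exact lt_irrefl b (hb b (mem_univ b))
  rw [Function.Injective] at h2
  push Not at h2
  obtain ⟨ξ, ξ', heq, hne⟩ := h2
  refine ⟨_, _, hν ξ, hν ξ', ?_⟩
  rw [Set.disjoint_left]
  rintro α ⟨h3, h4⟩ ⟨h5, h6⟩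
  apply hne
  apply he α h3 h5
  rw [h4, h6, heq]

lemma Stat.nonempty {S : Set W} (hS : Stat S) : S.Nonempty := by
  obtain ⟨δ, hδ, _⟩ := hS id
  exact ⟨δ, hδ⟩

/-- Closure of a set under countably many finitary operations. -/
inductive Clo (f : ℕ → Finset (W ⊕ K) → W ⊕ K) (A : Set (W ⊕ K)) : W ⊕ K → Prop
  | base {b : W ⊕ K} (h : b ∈ A) : Clo f A b
  | step (n : ℕ) (u : Finset (W ⊕ K)) (h : ∀ b ∈ u, Clo f A b) : Clo f A (f n u)

lemma Clo.mono {f : ℕ → Finset (W ⊕ K) → W ⊕ K} {A A' : Set (W ⊕ K)} (h : A ⊆ A')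
    {b : W ⊕ K} (hb : Clo f A b) : Clo f A' b := by
  induction hb with
  | base hb => exact Clo.base (h hb)
  | step n u _ ih => exact Clo.step n u ih

lemma countable_finset_subset {α : Type} {s : Set α} (hs : s.Countable) :
    {u : Finset α | (↑u : Set α) ⊆ s}.Countable := by
  have h := (Set.countable_ofPred_finite_subset hs).preimage_of_injOn
    (f := fun u : Finset α => (↑u : Set α)) (Finset.coe_injective.injOn)
  refine h.mono ?_
  intro u hu
  exact ⟨u.finite_toSet, hu⟩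

lemma clo_countable (f : ℕ → Finset (W ⊕ K) → W ⊕ K) (A : Set (W ⊕ K)) (hA : A.Countable) :
    {b | Clo f A b}.Countable := by
  classical
  let N : ℕ → Set (W ⊕ K) := fun k => Nat.rec A
    (fun _ X => X ∪ ⋃ n : ℕ, (f n) '' {u : Finset (W ⊕ K) | (↑u : Set (W ⊕ K)) ⊆ X}) k
  have hN : ∀ k, N (k+1) = N k ∪ ⋃ n : ℕ, (f n) '' {u : Finset (W ⊕ K) | (↑u : Set (W ⊕ K)) ⊆ N k} :=
    fun k => rfl
  have hc : ∀ k, (N k).Countable := by
    intro k
    induction k with
    | zero => exact hA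
    | succ k ih =>
      rw [hN]
      exact ih.union (countable_iUnion fun n => (countable_finset_subset ih).image _)
  have hmono : Monotone N := by
    apply monotone_nat_of_le_succ
    intro k
    rw [hN]
    exact subset_union_left
  refine (countable_iUnion hc).mono ?_
  intro b hb
  induction hb with
  | base hb => exact mem_iUnion.2 ⟨0, hb⟩
  | step n u _ ih =>
    have h1 : ∀ b ∈ u, ∃ k, b ∈ N k := fun b hb => mem_iUnion.1 (ih b hb)
    choose! x hx using h1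
    refine mem_iUnion.2 ⟨u.sup x + 1, ?_⟩
    rw [hN]
    refine Or.inr (mem_iUnion.2 ⟨n, u, ?_, rfl⟩)
    intro b hb
    exact hmono (Finset.le_sup hb) (hx b hb)

lemma exists_closed {S : Set W} (hS : Stat S) (f : ℕ → Finset (W ⊕ K) → W ⊕ K) (M₀ : Set K)
    (hM₀ : M₀.Countable) : ∃ δ ∈ S, ⊥ < δ ∧ ∃ M, M₀ ⊆ M ∧ M.Countable ∧ Cl f δ M := by
  classical
  let A : W → Set (W ⊕ K) := fun ξ => (Sum.inl '' Iic ξ) ∪ (Sum.inr '' M₀)
  have hAmono : ∀ ξ ξ', ξ ≤ ξ' → A ξ ⊆ A ξ' := by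
    intro ξ ξ' h
    exact union_subset_union_left _ (image_mono (Iic_subset_Iic.2 h))
  have h1 : ∀ x : W, (Iic x).Countable := by
    intro x
    have : Iic x = insert x (Iio x) := by
      ext y
      simp [le_iff_eq_or_lt]
    rw [this]
    exact (W_Iio x).insert x
  have hA : ∀ ξ, (A ξ).Countable := fun ξ => ((h1 ξ).image _).union (hM₀.image _)
  have hF : ∀ ξ, ∃ b : W, ∀ w, Clo f (A ξ) (Sum.inl w) → w < b := by
    intro ξ
    obtain ⟨b, hb⟩ := W_bdd {w | Clo f (A ξ) (Sum.inl w)}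
      ((clo_countable f (A ξ) (hA ξ)).preimage_of_injOn (f := Sum.inl) Sum.inl_injective.injOn)
    exact ⟨b, fun w hw => hb w hw⟩
  choose F hF using hF
  obtain ⟨δ, hδS, hδ0, hδ⟩ := hS F
  have hst : (st δ M₀).Countable := by
    have : st δ M₀ = (Sum.inl '' Iio δ) ∪ (Sum.inr '' M₀) := by
      ext b
      rcases b with w | k <;> simp
    rw [this]
    exact ((W_Iio δ).image _).union (hM₀.image _)
  have key : ∀ b, Clo f (st δ M₀) b → ∃ ξ < δ, Clo f (A ξ) b := by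
    intro b hb
    induction hb with
    | @base b hb =>
      rcases b with w | k
      · exact ⟨w, hb, Clo.base (Or.inl ⟨w, Set.mem_Iic.2 le_rfl, rfl⟩)⟩
      · exact ⟨⊥, hδ0, Clo.base (Or.inr ⟨k, hb, rfl⟩)⟩
    | step n u _ ih =>
      choose! x hx1 hx2 using ih
      refine ⟨u.sup x, (Finset.sup_lt_iff hδ0).2 hx1, Clo.step n u ?_⟩
      intro b hb
      exact (hx2 b hb).mono (hAmono _ _ (Finset.le_sup hb))
  refine ⟨δ, hδS, hδ0, {k | Clo f (st δ M₀) (Sum.inr k)}, ?_, ?_, ?_⟩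
  · intro k hk
    exact Clo.base hk
  · exact (clo_countable f _ hst).preimage_of_injOn (f := Sum.inr) Sum.inr_injective.injOn
  · intro n u hu
    have h2 : ∀ b ∈ u, Clo f (st δ M₀) b := by
      intro b hb
      have h3 := hu hb
      rcases b with w | k
      · exact Clo.base h3
      · exact h3
    have h4 := Clo.step n u h2
    rcases hfu : f n u with w | k
    · rw [hfu] at h4
      obtain ⟨ξ, hξ, h5⟩ := key _ h4
      exact (hF ξ w h5).trans (hδ ξ hξ)
    · rw [hfu] at h4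
      exact h4

end Pool.Agent.H57.AR
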