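import Pool.Agent.H57.AR.Diamond
import Pool.Agent.H57.AR.Pseudo

/-!
The system of neighbourhoods given by the diamond, and the large closed sets.
-/

set_option autoImplicit false

open Set Cardinal Filter Topology

namespace Pool.Agent.H57.AR

/-- The points of the space. -/
structure Pt (R : Set W) where
  ht : W
  ct : Set K
  nR : ht ∉ R
  cnt : ct.Countable

lemma exists_coding (R : Set W) : ∃ c : Pt R × ℕ → K, Function.Injective c := by
  have hK : ℵ₀ ≤ #K := aleph0_le_continuum.trans lt_mk_K.le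
  have hWK : #W ≤ #K := mk_W_le.trans lt_mk_K.le
  have hb : ∀ x : Pt R, ∃ b : K, x.ct ⊆ Iio b := fun x => by
    obtain ⟨b, hb⟩ := K_bdd_countable x.ct x.cnt
    exact ⟨b, hb⟩
  choose bd hbd using hb
  have h1 : #(Pt R) ≤ #K := by
    have h2 : #(Pt R) ≤ #(W × (Σ b : K, {t : Set K // t ⊆ Iio b ∧ t.Countable})) := by
      refine mk_le_of_injective (f := fun x : Pt R => (x.ht, ⟨bd x, ⟨x.ct, hbd x, x.cnt⟩⟩)) ?_
      intro x y hxy
      simp only [Prod.mk.injEq] at hxy
      obtain ⟨hx, hy⟩ := hxy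
      have h3 : x.ct = y.ct :=
        congrArg (fun p : (Σ b : K, {t : Set K // t ⊆ Iio b ∧ t.Countable}) => p.2.1) hy
      cases x
      cases y
      simp only at hx h3
      subst hx
      subst h3
      rfl
    refine h2.trans ?_
    rw [mk_prod, lift_id, lift_id, mk_sigma]
    have h4 : Cardinal.sum (fun b : K => #{t : Set K // t ⊆ Iio b ∧ t.Countable}) ≤ #K := by
      calc Cardinal.sum (fun b : K => #{t : Set K // t ⊆ Iio b ∧ t.Countable})
          ≤ Cardinal.sum (fun _ : K => #K) :=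
            Cardinal.sum_le_sum _ _ fun b => (card_cs _ (K_Iio b)).trans lt_mk_K.le
        _ = #K * #K := by simp
        _ = #K := mul_eq_self hK
    calc _ ≤ #K * #K := mul_le_mul' hWK h4
      _ = #K := mul_eq_self hK
  have h5 : #(Pt R × ℕ) ≤ #K := by
    rw [mk_prod, lift_id, lift_id]
    calc _ ≤ #K * #K := mul_le_mul' h1 (by rw [mk_nat]; exact hK)
      _ = #K := mul_eq_self hK
  obtain ⟨e⟩ := h5
  exact ⟨e, e.injective⟩

/-- Raw data of an assigned point. -/
structure Raw (R : Set W) where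
  b : ℕ → Pt R
  F : ℕ → Finset K
  r : ℕ → W
  ν : ℕ → ℕ

/-- The conditions on the data of an assigned point. -/
structure IsDat {R : Set W} (s : Set K → Set K) (c : Pt R × ℕ → K) (x : Pt R) (d : Raw R) :
    Prop where
  mem : ∀ k, c (d.b k, d.ν k) ∈ s x.ct
  inf : ∀ n N, ∃ k ≥ N, d.ν k = n
  sub : ∀ k, (d.b k).ct ⊆ x.ct
  hlt : ∀ k, (d.b k).ht < x.ht
  rlt : ∀ k, d.r k < (d.b k).ht
  Fsub : ∀ k, (↑(d.F k) : Set K) ⊆ (d.b k).ct
  Fev : ∀ i ∈ x.ct, ∀ᶠ k in atTop, i ∈ d.F k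
  rev : ∀ ξ < x.ht, ∀ᶠ k in atTop, ξ ≤ d.r k

/-- Large sets. -/
def Large {P : Type} [Sys P] (A : Set P) : Prop :=
  ∀ f : ℕ → Finset (W ⊕ K) → W ⊕ K, ∃ x ∈ A, Cl f (Sys.h x) (Sys.a x)

theorem exists_sys : ∃ (P : Type) (_ : Sys P), Large (univ : Set P) ∧
    ∀ A : ℕ → Set P, (∀ n, Large (A n)) → ∀ f : ℕ → Finset (W ⊕ K) → W ⊕ K,
      ∃ x : P, Cl f (Sys.h x) (Sys.a x) ∧ x ∈ Sys.asg (P := P) ∧
        ∀ n N, ∃ k ≥ N, Sys.b x k ∈ A n := by
  classical
  obtain ⟨R, S, hR, hS, hRS⟩ := exists_disjoint_stat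
  obtain ⟨s, -, hdia⟩ := diamond hS
  obtain ⟨c, hc⟩ := exists_coding R
  have hd : ∀ x : Pt R, ∃ d : Raw R, (∃ d', IsDat s c x d') → IsDat s c x d := by
    intro x
    by_cases h : ∃ d', IsDat s c x d'
    · obtain ⟨d', hd'⟩ := h
      exact ⟨d', fun _ => hd'⟩
    · exact ⟨⟨fun _ => x, fun _ => ∅, fun _ => ⊥, fun _ => 0⟩, fun h' => absurd h' h⟩
  choose d hd using hd
  let σ : Sys (Pt R) :=
    { h := fun x => x.ht
      a := fun x => x.ct
      asg := {x | ∃ d', IsDat s c x d'}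
      b := fun x => (d x).b
      F := fun x => (d x).F
      r := fun x => (d x).r
      sub := fun x hx => (hd x hx).sub
      hlt := fun x hx => (hd x hx).hlt
      rlt := fun x hx => (hd x hx).rlt
      Fsub := fun x hx => (hd x hx).Fsub
      Fev := fun x hx => (hd x hx).Fev
      rev := fun x hx => (hd x hx).rev
      inj := by
        rintro ⟨_, _, _, _⟩ ⟨_, _, _, _⟩ h1 h2
        simp only at h1 h2
        subst h1
        subst h2
        rfl
      ac := fun x => x.cnt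
      R := R
      statR := hR
      notR := fun x => x.nR }
  have hSR : ∀ δ ∈ S, δ ∉ R := fun δ h1 h2 => Set.disjoint_left.1 hRS h2 h1
  have hLuniv : ∀ f : ℕ → Finset (W ⊕ K) → W ⊕ K, ∃ x : Pt R, Cl f x.ht x.ct := by
    intro f
    obtain ⟨δ, hδ, _, M, _, hM, hcl⟩ := exists_closed hS f ∅ countable_empty
    exact ⟨⟨δ, M, hSR δ hδ, hM⟩, hcl⟩
  refine ⟨Pt R, σ, ?_, ?_⟩
  · intro f
    obtain ⟨x, hx⟩ := hLuniv f
    exact ⟨x, mem_univ x, hx⟩
  · intro A hA f
    have hA' : ∀ (n : ℕ) (f : ℕ → Finset (W ⊕ K) → W ⊕ K), ∃ x ∈ A n, Cl f x.ht x.ct := hA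
    -- choice of members of the large sets above finite sets
    have hg : ∀ (m : ℕ) (u : Finset (W ⊕ K)), ∃ b : Pt R, b ∈ A m ∧
        (↑u : Set (W ⊕ K)) ⊆ st b.ht b.ct := by
      intro m u
      obtain ⟨e, he⟩ := ((u.countable_toSet).insert (Sum.inl (⊥ : W))).exists_eq_range
        ⟨Sum.inl (⊥ : W), mem_insert _ _⟩
      obtain ⟨x, hx, hcl⟩ := hA' m (fun n _ => e n)
      refine ⟨x, hx, fun y hy => ?_⟩
      have h1 : y ∈ range e := he ▸ mem_insert_of_mem _ hy
      obtain ⟨n, rfl⟩ := h1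
      exact hcl n ∅ (by simp)
    choose g hgA hgst using hg
    obtain ⟨x0, -⟩ := hLuniv f
    have : Nonempty (Pt R × ℕ) := ⟨(x0, 0)⟩
    have htoK : ∀ u : Finset (W ⊕ K), ∃ κ : K, ∀ κ' : K, u = {Sum.inr κ'} → κ = κ' := by
      intro u
      by_cases hu : ∃ κ : K, u = {Sum.inr κ}
      · obtain ⟨κ, rfl⟩ := hu
        refine ⟨κ, fun κ' h => ?_⟩
        have := Finset.singleton_injective h
        exact Sum.inr_injective this
      · exact ⟨⊥, fun κ' h => absurd ⟨κ', h⟩ hu⟩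
    choose toK htoK using htoK
    let toP : Finset (W ⊕ K) → Pt R := fun u => (Function.invFun c (toK u)).1
    have htoP : ∀ p, toP {Sum.inr (c p)} = p.1 := by
      intro p
      have h1 : toK {Sum.inr (c p)} = c p := htoK _ _ rfl
      have h2 : Function.invFun c (c p) = p := Function.leftInverse_invFun hc p
      simp only [toP, h1, h2]
    have hen : ∀ t : Set K, ∃ e : ℕ → K, t.Countable → t.Nonempty → t = range e := by
      intro t
      by_cases h : t.Countable ∧ t.Nonempty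
      · obtain ⟨e, he⟩ := h.1.exists_eq_range h.2
        exact ⟨e, fun _ _ => he⟩
      · exact ⟨fun _ => ⊥, fun h1 h2 => absurd ⟨h1, h2⟩ h⟩
    choose en hen using hen
    let f' : ℕ → Finset (W ⊕ K) → W ⊕ K := fun n u =>
      if (Nat.unpair n).1 = 0 then f (Nat.unpair n).2 u
      else if (Nat.unpair n).1 = 1 then Sum.inr (c (g (Nat.unpair n).2 u, (Nat.unpair n).2))
      else if (Nat.unpair n).1 = 2 then Sum.inr (en (toP u).ct (Nat.unpair n).2)
      else if (Nat.unpair n).1 = 3 then Sum.inl (toP u).ht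
      else Sum.inl ⊥
    have hf0 : ∀ m u, f' (Nat.pair 0 m) u = f m u := by
      intro m u
      simp [f', Nat.unpair_pair]
    have hf1 : ∀ m u, f' (Nat.pair 1 m) u = Sum.inr (c (g m u, m)) := by
      intro m u
      simp [f', Nat.unpair_pair]
    have hf2 : ∀ m u, f' (Nat.pair 2 m) u = Sum.inr (en (toP u).ct m) := by
      intro m u
      simp [f', Nat.unpair_pair]
    have hf3 : ∀ m u, f' (Nat.pair 3 m) u = Sum.inl (toP u).ht := by
      intro m u
      simp [f', Nat.unpair_pair]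
    have hf4 : ∀ m u, f' (Nat.pair 4 m) u = Sum.inl ⊥ := by
      intro m u
      simp [f', Nat.unpair_pair]
    obtain ⟨δ, hδ, a, hac, hcl, hsa⟩ := hdia {κ | ∃ n b, b ∈ A n ∧ κ = c (b, n)} f'
    have h0 : ⊥ < δ := by
      have := hcl (Nat.pair 4 0) ∅ (by simp)
      rw [hf4] at this
      exact this
    have hclf : Cl f δ a := by
      intro m u hu
      have := hcl (Nat.pair 0 m) u hu
      rwa [hf0] at this
    have hga : ∀ (m : ℕ) (u : Finset (W ⊕ K)), (↑u : Set (W ⊕ K)) ⊆ st δ a →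
        c (g m u, m) ∈ a := by
      intro m u hu
      have := hcl (Nat.pair 1 m) u hu
      rw [hf1] at this
      exact this
    have hsing : ∀ p : Pt R × ℕ, c p ∈ a →
        (↑({Sum.inr (c p)} : Finset (W ⊕ K)) : Set (W ⊕ K)) ⊆ st δ a := by
      intro p hp
      simpa using hp
    have hdh : ∀ p : Pt R × ℕ, c p ∈ a → p.1.ht < δ := by
      intro p hp
      have := hcl (Nat.pair 3 0) _ (hsing p hp)
      rw [hf3, htoP] at this
      exact this
    have hda : ∀ p : Pt R × ℕ, c p ∈ a → p.1.ct ⊆ a := by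
      intro p hp y hy
      have h1 := hen p.1.ct p.1.cnt ⟨y, hy⟩
      have h2 : y ∈ range (en p.1.ct) := h1 ▸ hy
      obtain ⟨m, rfl⟩ := h2
      have := hcl (Nat.pair 2 m) _ (hsing p hp)
      rw [hf2, htoP] at this
      exact this
    obtain ⟨r, hr1, hr2, hr3⟩ := cofinal_seq δ h0
    have hane : a.Nonempty := ⟨_, hga 0 ∅ (by simp)⟩
    obtain ⟨e, he⟩ := hac.exists_eq_range hane
    have hea : ∀ n, e n ∈ a := fun n => he ▸ mem_range_self n
    let F : ℕ → Finset K := fun k => (Finset.range k).image e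
    let u : ℕ → Finset (W ⊕ K) := fun k => insert (Sum.inl (r k)) ((F k).image Sum.inr)
    have hu : ∀ k, (↑(u k) : Set (W ⊕ K)) ⊆ st δ a := by
      intro k y hy
      rcases Finset.mem_insert.1 hy with rfl | h1
      · exact hr2 k
      · obtain ⟨z, hz, rfl⟩ := Finset.mem_image.1 h1
        obtain ⟨j, _, rfl⟩ := Finset.mem_image.1 hz
        exact hea j
    let x : Pt R := ⟨δ, a, hSR δ hδ, hac⟩
    have hdat : IsDat s c x ⟨fun k => g (Nat.unpair k).1 (u k), F, r,
        fun k => (Nat.unpair k).1⟩ := by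
      have hk : ∀ k, c (g (Nat.unpair k).1 (u k), (Nat.unpair k).1) ∈ a := fun k =>
        hga _ _ (hu k)
      refine ⟨fun k => ?_, fun n N => ?_, fun k => hda _ (hk k), fun k => hdh _ (hk k),
        fun k => ?_, fun k y hy => ?_, fun i hi => ?_, fun ξ hξ => ?_⟩
      · change c (g (Nat.unpair k).1 (u k), (Nat.unpair k).1) ∈ s a
        rw [hsa]
        exact ⟨⟨_, _, hgA _ _, rfl⟩, hk k⟩
      · refine ⟨Nat.pair n N, Nat.right_le_pair n N, ?_⟩
        simp [Nat.unpair_pair]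
      · exact hgst (Nat.unpair k).1 (u k) (Finset.mem_insert_self _ _)
      · exact hgst (Nat.unpair k).1 (u k)
          (Finset.mem_insert_of_mem (Finset.mem_image_of_mem Sum.inr hy))
      · have h1 : i ∈ range e := he ▸ hi
        obtain ⟨j, rfl⟩ := h1
        filter_upwards [eventually_gt_atTop j] with k hk
        exact Finset.mem_image_of_mem e (Finset.mem_range.2 hk)
      · obtain ⟨n, hn⟩ := hr3 ξ hξ
        filter_upwards [eventually_ge_atTop n] with k hk
        exact hn.trans (hr1 hk)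
    have hxd : IsDat s c x (d x) := hd x ⟨_, hdat⟩
    refine ⟨x, hclf, ⟨_, hdat⟩, fun n N => ?_⟩
    obtain ⟨k, hkN, hk⟩ := hxd.inf n N
    refine ⟨k, hkN, ?_⟩
    have h1 : c ((d x).b k, (d x).ν k) ∈ s a := hxd.mem k
    rw [hsa] at h1
    obtain ⟨⟨n', b', hb', heq⟩, _⟩ := h1
    have h2 := hc heq
    simp only [Prod.mk.injEq] at h2
    change (d x).b k ∈ A n
    rw [h2.1, ← hk, h2.2]
    exact hb'

end Pool.Agent.H57.AR
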