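import Pool.Agent.H57.AR.Stat
import Pool.Agent.H57.AR.Guess

/-!
The tree lemma: there are nonbad positions.
-/

set_option autoImplicit false

open Set Cardinal

namespace Pool.Agent.H57.AR

lemma card_cs {α : Type} (s : Set α) (hs : #s ≤ 𝔠) : #{t : Set α // t ⊆ s ∧ t.Countable} ≤ 𝔠 := by
  have h1 : #{t : Set α // t ⊆ s ∧ t.Countable} = #{t : Set α // t ⊆ s ∧ #t ≤ ℵ₀} := by
    simp only [le_aleph0_iff_set_countable]
  rw [h1]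
  refine (mk_bounded_subset_le s ℵ₀).trans ?_
  calc max #s ℵ₀ ^ ℵ₀ ≤ 𝔠 ^ ℵ₀ :=
        power_le_power_right (max_le hs aleph0_le_continuum)
    _ = 𝔠 := continuum_power_aleph0

lemma card_fs {α : Type} (s : Set α) (hs : #s ≤ 𝔠) :
    #{u : Finset α // (↑u : Set α) ⊆ s} ≤ 𝔠 := by
  refine le_trans ?_ (card_cs s hs)
  refine mk_le_of_injective (f := fun u : {u : Finset α // (↑u : Set α) ⊆ s} =>
    (⟨↑u.1, u.2, u.1.countable_toSet⟩ : {t : Set α // t ⊆ s ∧ t.Countable})) ?_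
  intro u v h
  apply Subtype.ext
  apply Finset.coe_injective
  exact congrArg (fun t : {t : Set α // t ⊆ s ∧ t.Countable} => t.1) h

/-- The set `W` together with the ordinals of `K` below `ζ`. -/
def WB (ζ : K) : Set (W ⊕ K) := Sum.elim (fun _ => True) (fun k => k < ζ)

@[simp] lemma inl_mem_WB {ζ : K} {w : W} : Sum.inl w ∈ WB ζ ↔ True := Iff.rfl
@[simp] lemma inr_mem_WB {ζ : K} {k : K} : Sum.inr k ∈ WB ζ ↔ k < ζ := Iff.rfl

lemma card_WB (ζ : K) : #(WB ζ) ≤ 𝔠 := by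
  have h1 : WB ζ ⊆ range (Sum.inl : W → W ⊕ K) ∪ Sum.inr '' Iio ζ := by
    rintro (w | k) h
    · exact Or.inl ⟨w, rfl⟩
    · exact Or.inr ⟨k, h, rfl⟩
  refine (mk_le_mk_of_subset h1).trans ((mk_union_le _ _).trans ?_)
  calc _ ≤ #W + #(Iio ζ) := add_le_add mk_range_le mk_image_le
    _ ≤ 𝔠 + 𝔠 := add_le_add mk_W_le (K_Iio ζ)
    _ = 𝔠 := add_eq_self aleph0_le_continuum

/-- One legal move: `t'` extends `t` by adding elements from `z` on. -/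
def Legal (f : ℕ → Finset (W ⊕ K) → W ⊕ K) (δ : W) (t : Set K) (z : K) (t' : Set K) : Prop :=
  t' ∩ Iio z = t ∧ z ∈ t' ∧ t'.Countable ∧
  ∀ n (u : Finset (W ⊕ K)), (↑u : Set (W ⊕ K)) ⊆ st δ t → f n u ∈ st δ t'

/-- Bad positions of a given rank. -/
noncomputable def Bd (f : ℕ → Finset (W ⊕ K) → W ⊕ K) (δ : W) : Ordinal.{0} → Set (Set K) :=
  (wellFounded_lt (α := Ordinal.{0})).fix fun α r =>
    {t | ∃ β : K, ∀ z, β ≤ z → ∀ t', Legal f δ t z t' → ∃ γ, ∃ h : γ < α, t' ∈ r γ h}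

lemma mem_Bd {f : ℕ → Finset (W ⊕ K) → W ⊕ K} {δ : W} {α : Ordinal.{0}} {t : Set K} :
    t ∈ Bd f δ α ↔ ∃ β : K, ∀ z, β ≤ z → ∀ t', Legal f δ t z t' → ∃ γ < α, t' ∈ Bd f δ γ := by
  unfold Bd
  rw [WellFounded.fix_eq]
  simp only [mem_ofPred_eq, exists_prop]

/-- Positions that are not bad. -/
def NB (f : ℕ → Finset (W ⊕ K) → W ⊕ K) (δ : W) (t : Set K) : Prop :=
  t.Countable ∧ ∀ α, t ∉ Bd f δ α

lemma NB.step {f : ℕ → Finset (W ⊕ K) → W ⊕ K} {δ : W} {t : Set K} (h : NB f δ t) (β : K) :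
    ∃ z, β ≤ z ∧ ∃ t', Legal f δ t z t' ∧ NB f δ t' := by
  by_contra hcon
  push Not at hcon
  have h1 : ∀ t' : Set K, ∃ α, (∃ α, t' ∈ Bd f δ α) → t' ∈ Bd f δ α := by
    intro t'
    by_cases ht' : ∃ α, t' ∈ Bd f δ α
    · obtain ⟨α, hα⟩ := ht'
      exact ⟨α, fun _ => hα⟩
    · exact ⟨0, fun h' => absurd h' ht'⟩
  choose rk hrk using h1
  obtain ⟨μ, hμ⟩ := Ordinal.bddAbove_of_small (s := range rk)
  apply h.2 (Order.succ μ)
  rw [mem_Bd]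
  refine ⟨β, fun z hz t' hL => ⟨rk t', Order.lt_succ_of_le (hμ ⟨t', rfl⟩), ?_⟩⟩
  apply hrk
  have h2 := hcon z hz t' hL
  unfold NB at h2
  push Not at h2
  exact h2 hL.2.2.1

/-- Transfinite iteration along `W` of a function on `K`. -/
noncomputable def Xs (ub : Set K → K) (G : K → K) (b : K) : W → K :=
  (wellFounded_lt (α := W)).fix fun ξ r => ub (insert b {y | ∃ ξ', ∃ h : ξ' < ξ, y = G (r ξ' h)})

lemma Xs_spec (G : K → K) (b : K) : ∃ X : W → K, (∀ ξ, b < X ξ) ∧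
    ∀ ξ ξ', ξ' < ξ → G (X ξ') < X ξ := by
  have h1 : ∀ A : Set K, ∃ b, A.Countable → ∀ x ∈ A, x < b := by
    intro A
    by_cases hA : A.Countable
    · obtain ⟨b, hb⟩ := K_bdd_countable A hA
      exact ⟨b, fun _ => hb⟩
    · exact ⟨⊥, fun h => absurd h hA⟩
  choose ub hub using h1
  have hX : ∀ ξ, Xs ub G b ξ = ub (insert b {y | ∃ ξ', ∃ _h : ξ' < ξ, y = G (Xs ub G b ξ')}) := by
    intro ξ
    unfold Xs
    rw [WellFounded.fix_eq]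
  have hc : ∀ ξ, (insert b {y | ∃ ξ', ∃ _h : ξ' < ξ, y = G (Xs ub G b ξ')}).Countable := by
    intro ξ
    apply Countable.insert
    refine ((W_Iio ξ).image (fun ξ' => G (Xs ub G b ξ'))).mono ?_
    rintro y ⟨ξ', h, rfl⟩
    exact ⟨ξ', h, rfl⟩
  refine ⟨Xs ub G b, fun ξ => ?_, fun ξ ξ' h => ?_⟩
  · rw [hX]
    exact hub _ (hc ξ) b (mem_insert _ _)
  · rw [hX ξ]
    exact hub _ (hc ξ) _ (mem_insert_of_mem _ ⟨ξ', h, rfl⟩)

lemma exists_omega1_closed (g : K → K) (b : K) : ∃ ε, b < ε ∧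
    (∀ a : Set K, a.Countable → a ⊆ Iio ε → ∃ ζ < ε, a ⊆ Iio ζ) ∧ ∀ ζ < ε, g ζ < ε := by
  choose G hG1 hG2 using K_step g
  obtain ⟨X, hX1, hX2⟩ := Xs_spec G b
  obtain ⟨c, hc⟩ := K_bdd_range mk_W_le X
  obtain ⟨ε, hε⟩ := exists_isLUB (range X) ⟨c, by rintro _ ⟨ξ, rfl⟩; exact (hc ξ).le⟩
  have hlt : ∀ ξ, G (X ξ) < ε := by
    intro ξ
    obtain ⟨ξ', hξ'⟩ := W_exists_gt ξ
    exact lt_of_lt_of_le (hX2 _ _ hξ') (hε.1 ⟨ξ', rfl⟩)
  have hlt' : ∀ ξ, X ξ < ε := fun ξ => (hG1 _).trans (hlt ξ)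
  have hmono : ∀ ξ ξ', ξ' < ξ → X ξ' < X ξ := fun ξ ξ' h => (hG1 _).trans (hX2 _ _ h)
  have hcof : ∀ ζ, ζ < ε → ∃ ξ, ζ < X ξ := by
    intro ζ hζ
    obtain ⟨_, ⟨ξ, rfl⟩, h⟩ := (lt_isLUB_iff hε).1 hζ
    exact ⟨ξ, h⟩
  refine ⟨ε, (hX1 ⊥).trans (hlt' ⊥), ?_, ?_⟩
  · intro a ha hsub
    choose! x hx using hcof
    obtain ⟨ξ, hξ⟩ := W_bdd (x '' a) (ha.image x)
    refine ⟨X ξ, hlt' ξ, fun y hy => ?_⟩
    exact (hx y (hsub hy)).trans (hmono _ _ (hξ _ ⟨y, hy, rfl⟩))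
  · intro ζ hζ
    obtain ⟨ξ, hξ⟩ := hcof ζ hζ
    exact (hG2 _ _ hξ.le).trans (hlt ξ)

theorem exists_NB {S : Set W} (hS : Stat S) (f : ℕ → Finset (W ⊕ K) → W ⊕ K) :
    ∃ δ ∈ S, ∃ t, NB f δ t := by
  by_contra hcon
  push Not at hcon
  have hcon' : ∀ δ ∈ S, ∀ t : Set K, t.Countable → ∃ α, t ∈ Bd f δ α := by
    intro δ hδ t ht
    have := hcon δ hδ t
    unfold NB at this
    push Not at this
    exact this ht
  have h1 : ∀ (δ : W) (t : Set K), ∃ β : K, δ ∈ S → t.Countable → ∀ z, β ≤ z → ∀ t',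
      Legal f δ t z t' → sInf {α | t' ∈ Bd f δ α} < sInf {α | t ∈ Bd f δ α} := by
    intro δ t
    by_cases h : δ ∈ S ∧ t.Countable
    · have h2 : sInf {α | t ∈ Bd f δ α} ∈ {α | t ∈ Bd f δ α} := csInf_mem (hcon' δ h.1 t h.2)
      obtain ⟨β, hβ⟩ := mem_Bd.1 h2
      refine ⟨β, fun _ _ z hz t' hL => ?_⟩
      obtain ⟨γ, hγ, h3⟩ := hβ z hz t' hL
      exact lt_of_le_of_lt (csInf_le' h3) hγ
    · exact ⟨⊥, fun h3 h4 => absurd ⟨h3, h4⟩ h⟩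
  choose β hβ using h1
  have h2 : ∀ ζ : K, ∃ c : K, (∀ δ t, t.Countable → t ⊆ Iio ζ → β δ t < c) ∧
      ∀ n (u : Finset (W ⊕ K)), (↑u : Set (W ⊕ K)) ⊆ WB ζ → ∀ k, f n u = Sum.inr k → k < c := by
    intro ζ
    obtain ⟨b1, hb1⟩ := K_bdd_range (ι := W × {t : Set K // t ⊆ Iio ζ ∧ t.Countable}) (by
      rw [mk_prod, lift_id, lift_id]
      calc _ ≤ 𝔠 * 𝔠 := mul_le_mul' mk_W_le (card_cs _ (K_Iio ζ))
        _ = 𝔠 := mul_eq_self aleph0_le_continuum) (fun p => β p.1 p.2.1)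
    obtain ⟨b2, hb2⟩ := K_bdd_range (ι := ℕ × {u : Finset (W ⊕ K) // (↑u : Set (W ⊕ K)) ⊆ WB ζ}) (by
      rw [mk_prod, lift_id, lift_id]
      calc _ ≤ 𝔠 * 𝔠 := mul_le_mul' (by rw [mk_nat]; exact aleph0_le_continuum)
            (card_fs _ (card_WB ζ))
        _ = 𝔠 := mul_eq_self aleph0_le_continuum)
      (fun p => Sum.elim (fun _ => ⊥) id (f p.1 p.2.1))
    refine ⟨max b1 b2, fun δ t ht hsub => ?_, fun n u hu k hk => ?_⟩
    · exact lt_of_lt_of_le (hb1 (δ, ⟨t, hsub, ht⟩)) (le_max_left _ _)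
    · have := hb2 (n, ⟨u, hu⟩)
      simp only [hk, Sum.elim_inr, id] at this
      exact lt_of_lt_of_le this (le_max_right _ _)
  choose g hg1 hg2 using h2
  choose ef hef1 hef2 hef3 using exists_omega1_closed g
  obtain ⟨δ, hδ, _, M, hM1, hM2, hM3⟩ := exists_closed hS f
    (range (fun j : ℕ => ef^[j+1] ⊥)) (countable_range _)
  have hlt : ∀ j : ℕ, ef^[j+1] ⊥ < ef^[j+1+1] ⊥ := by
    intro j
    rw [Function.iterate_succ_apply' ef (j+1)]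
    exact hef1 _
  have hA : ∀ j : ℕ, ∀ a : Set K, a.Countable → a ⊆ Iio (ef^[j+1] ⊥) →
      ∃ ζ < ef^[j+1] ⊥, a ⊆ Iio ζ := by
    intro j
    rw [Function.iterate_succ_apply']
    exact hef2 _
  have hB : ∀ j : ℕ, ∀ ζ < ef^[j+1] ⊥, g ζ < ef^[j+1] ⊥ := by
    intro j
    rw [Function.iterate_succ_apply']
    exact hef3 _
  obtain ⟨j, hj⟩ := WellFounded.not_rel_apply_succ (r := ((· < ·) : Ordinal.{0} → Ordinal.{0} → Prop))
    (fun j : ℕ => sInf {α | M ∩ Iio (ef^[j+1] ⊥) ∈ Bd f δ α})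
  apply hj
  have htc : (M ∩ Iio (ef^[j+1] ⊥)).Countable := hM2.mono inter_subset_left
  refine hβ δ (M ∩ Iio (ef^[j+1] ⊥)) hδ htc (ef^[j+1] ⊥) ?_ _ ⟨?_, ?_, ?_, ?_⟩
  · obtain ⟨ζ, hζ, hsub⟩ := hA j _ htc inter_subset_right
    exact ((hg1 ζ δ _ htc hsub).trans (hB j ζ hζ)).le
  · rw [inter_assoc, Iio_inter_Iio, min_eq_right (hlt j).le]
  · exact ⟨hM1 ⟨j, rfl⟩, hlt j⟩
  · exact hM2.mono inter_subset_left
  · intro n u hu
    have h3 : f n u ∈ st δ M := hM3 n u (hu.trans (st_mono le_rfl inter_subset_left))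
    have h4 : (↑u : Set (W ⊕ K)) ⊆ WB (ef^[j+1] ⊥) := by
      intro b hb
      have := hu hb
      rcases b with w | k
      · trivial
      · exact this.2
    rcases hfu : f n u with w | k
    · rw [hfu] at h3
      exact h3
    · rw [hfu] at h3
      exact ⟨h3, (hg2 _ n u h4 k hfu).trans (hB (j+1) _ (hlt j))⟩

end Pool.Agent.H57.AR
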